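import Mathlib

/-!
# Killed random walk with exponentially decaying couplings: definitions

The model KRW on `ℤ^d` with couplings `J_{xy} = ψ(x-y) exp(-|x-y|)`, its 2-point function, its
inverse correlation length and the thresholds `λ_c`, `λ_exp`, `λ_sat(s)`.
-/

set_option autoImplicit false

namespace Pool.Agent.W825.Sat

open Filter Topology

/-- the sites of the lattice `ℤ^d` -/
abbrev Site (d : ℕ) : Type := Fin d → ℤ

/-- a lattice site as a real vector -/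
def emb {d : ℕ} (x : Site d) : Fin d → ℝ := fun i => (x i : ℝ)

/-- `N` is a norm on `ℝ^d` which is invariant under the symmetries of the lattice `ℤ^d`
(permutations of the coordinates and changes of sign of coordinates) -/
structure LatticeNorm {d : ℕ} (N : (Fin d → ℝ) → ℝ) : Prop where
  pos : ∀ v : Fin d → ℝ, v ≠ 0 → 0 < N v
  smul : ∀ (a : ℝ) (v : Fin d → ℝ), N (a • v) = |a| * N v
  add_le : ∀ v w : Fin d → ℝ, N (v + w) ≤ N v + N w
  perm : ∀ (π : Equiv.Perm (Fin d)) (v : Fin d → ℝ), N (fun i => v (π i)) = N v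
  refl : ∀ (j : Fin d) (v : Fin d → ℝ), N (Function.update v j (-v j)) = N v

/-- `ψ ≥ 0` on `ℤ^d` is positive off the origin, `|y|⁻¹ log ψ(y) → 0` as `|y| → ∞`, and `ψ` is
invariant under the symmetries of the lattice `ℤ^d` -/
structure Prefactor {d : ℕ} (N : (Fin d → ℝ) → ℝ) (ψ : Site d → ℝ) : Prop where
  nonneg : ∀ x : Site d, 0 ≤ ψ x
  pos : ∀ x : Site d, x ≠ 0 → 0 < ψ x
  sub : Tendsto (fun x : Site d => Real.log (ψ x) / N (emb x)) cofinite (𝓝 0)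
  perm : ∀ (π : Equiv.Perm (Fin d)) (x : Site d), ψ (fun i => x (π i)) = ψ x
  refl : ∀ (j : Fin d) (x : Site d), ψ (Function.update x j (-x j)) = ψ x

/-- the couplings: `J_{xy} = ψ(x-y) exp(-|x-y|)` for `x ≠ y` and `J_{xx} = 0` -/
noncomputable def J {d : ℕ} (N : (Fin d → ℝ) → ℝ) (ψ : Site d → ℝ) (x y : Site d) : ℝ :=
  if x = y then 0 else ψ (x - y) * Real.exp (-N (emb (x - y)))

/-- the 2-point function of the killed random walk (KRW) with parameter `lam`: the sum over all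
`n ≥ 0` and all walks `γ = (γ_0, …, γ_n)` from `x` to `y` of `∏ lam * J_{γ_{i-1} γ_i}` -/
noncomputable def G {d : ℕ} (N : (Fin d → ℝ) → ℝ) (ψ : Site d → ℝ) (lam : ℝ) (x y : Site d) :
    ENNReal :=
  ∑' n : ℕ, ∑' γ : {γ : Fin (n + 1) → Site d // γ 0 = x ∧ γ (Fin.last n) = y},
    ∏ i : Fin n, ENNReal.ofReal (lam * J N ψ (γ.1 i.castSucc) (γ.1 i.succ))

/-- the lattice site `z` with `v ∈ z + [-1/2, 1/2)^d` -/
noncomputable def site {d : ℕ} (v : Fin d → ℝ) : Site d := fun i => ⌊v i + 1 / 2⌋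

/-- `-(1/n) log G_λ(0, ns)` -/
noncomputable def rate {d : ℕ} (N : (Fin d → ℝ) → ℝ) (ψ : Site d → ℝ) (s : Fin d → ℝ) (lam : ℝ)
    (n : ℕ) : ℝ :=
  -(1 / (n : ℝ)) * Real.log (G N ψ lam 0 (site (fun i => n * s i))).toReal

/-- the inverse correlation length in direction `s`: the (lower) limit of `-(1/n) log G_λ(0, ns)` -/
noncomputable def nu {d : ℕ} (N : (Fin d → ℝ) → ℝ) (ψ : Site d → ℝ) (s : Fin d → ℝ) (lam : ℝ) :
    ℝ :=
  liminf (rate N ψ s lam) atTop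

/-- `λ_c = sup {λ : ∑_x G_λ(0,x) < ∞}` -/
noncomputable def lamC {d : ℕ} (N : (Fin d → ℝ) → ℝ) (ψ : Site d → ℝ) : ℝ :=
  sSup {lam : ℝ | 0 ≤ lam ∧ ∑' x : Site d, G N ψ lam 0 x < ⊤}

/-- `λ_exp = min (λ_c, inf {λ : inf_s ν_s(λ) = 0})`, the inner infimum being over the Euclidean
unit vectors `s` (the infimum of the empty set is `∞`) -/
noncomputable def lamExp {d : ℕ} (N : (Fin d → ℝ) → ℝ) (ψ : Site d → ℝ) : ℝ :=
  sInf ({lamC N ψ} ∪ {lam : ℝ | 0 < lam ∧ lam < lamC N ψ ∧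
    ⨅ s : {s : Fin d → ℝ // ∑ i, s i ^ 2 = 1}, nu N ψ s.1 lam = 0})

/-- `λ_sat(s) = sup {λ : ν_s(λ) = |s|}` -/
noncomputable def lamSat {d : ℕ} (N : (Fin d → ℝ) → ℝ) (ψ : Site d → ℝ) (s : Fin d → ℝ) : ℝ :=
  sSup {lam : ℝ | 0 < lam ∧ lam < lamC N ψ ∧ nu N ψ s lam = N s}

end Pool.Agent.W825.Sat
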