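import Mathlib

set_option autoImplicit false

/-!
# The one-dimensional transform `φ(τ) = ∑_k a(k) e^{τ k}`
-/

namespace Pool.Agent.W825.Sat

open Filter Topology

/-- `a(k) = (1+|k|)^{-3} e^{-|k|}` -/
noncomputable def aa (k : ℤ) : ℝ := Real.exp (-|(k : ℝ)|) / (1 + |(k : ℝ)|) ^ 3

theorem aa_pos (k : ℤ) : 0 < aa k := by unfold aa; positivity

theorem aa_zero : aa 0 = 1 := by simp [aa]

theorem aa_neg (k : ℤ) : aa (-k) = aa k := by simp [aa]

noncomputable def phi (τ : ℝ) : ℝ := ∑' k : ℤ, aa k * Real.exp (τ * k)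

noncomputable def phi1 (τ : ℝ) : ℝ := ∑' k : ℤ, k * (aa k * Real.exp (τ * k))

theorem summable_pow (r : ℕ) (hr : 2 ≤ r) :
    Summable fun k : ℤ => 1 / (1 + |(k : ℝ)|) ^ r := by
  have h : Summable fun n : ℕ => 1 / ((n : ℝ) + 1) ^ r := by
    have := (summable_nat_add_iff 1).2 (Real.summable_one_div_nat_pow.2 (by omega : 1 < r))
    simpa using this
  refine Summable.of_nat_of_neg ?_ ?_
  · refine h.congr fun n => ?_
    simp [add_comm]
  · refine h.congr fun n => ?_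
    simp [add_comm]

theorem exp_bd {τ : ℝ} (hτ : |τ| ≤ 1) (k : ℤ) :
    aa k * Real.exp (τ * k) ≤ 1 / (1 + |(k : ℝ)|) ^ 3 := by
  unfold aa
  rw [div_mul_eq_mul_div, ← Real.exp_add]
  refine div_le_div_of_nonneg_right ?_ (by positivity)
  rw [Real.exp_le_one_iff]
  have h1 : τ * k ≤ |τ| * |(k : ℝ)| := by
    rw [← abs_mul]; exact le_abs_self _
  have h2 : |τ| * |(k : ℝ)| ≤ 1 * |(k : ℝ)| := mul_le_mul_of_nonneg_right hτ (abs_nonneg _)
  linarith

theorem exp_bd' {τ : ℝ} (hτ : |τ| ≤ 1) (k : ℤ) :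
    |(k : ℝ) * (aa k * Real.exp (τ * k))| ≤ 1 / (1 + |(k : ℝ)|) ^ 2 := by
  have hp : 0 < aa k * Real.exp (τ * k) := mul_pos (aa_pos k) (Real.exp_pos _)
  rw [abs_mul, abs_of_pos hp]
  have h := exp_bd hτ k
  have hk : |(k : ℝ)| ≤ 1 + |(k : ℝ)| := by linarith
  calc |(k : ℝ)| * (aa k * Real.exp (τ * k)) ≤ (1 + |(k : ℝ)|) * (1 / (1 + |(k : ℝ)|) ^ 3) := by
        apply mul_le_mul hk h hp.le (by positivity)
    _ = 1 / (1 + |(k : ℝ)|) ^ 2 := by field_simp

theorem phi_summable {τ : ℝ} (hτ : |τ| ≤ 1) : Summable fun k : ℤ => aa k * Real.exp (τ * k) := by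
  refine Summable.of_nonneg_of_le (fun k => ?_) (exp_bd hτ) (summable_pow 3 (by norm_num))
  exact (mul_pos (aa_pos k) (Real.exp_pos _)).le

theorem phi1_summable {τ : ℝ} (hτ : |τ| ≤ 1) :
    Summable fun k : ℤ => (k : ℝ) * (aa k * Real.exp (τ * k)) := by
  refine Summable.of_norm_bounded (summable_pow 2 (by norm_num)) fun k => ?_
  rw [Real.norm_eq_abs]
  exact exp_bd' hτ k

theorem phi_neg (τ : ℝ) : phi (-τ) = phi τ := by
  unfold phi
  rw [← (Equiv.neg ℤ).tsum_eq]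
  refine tsum_congr fun k => ?_
  simp only [Equiv.neg_apply]
  rw [aa_neg]
  push_cast
  ring_nf

theorem phi1_neg (τ : ℝ) : phi1 (-τ) = -phi1 τ := by
  unfold phi1
  rw [← (Equiv.neg ℤ).tsum_eq, ← tsum_neg]
  refine tsum_congr fun k => ?_
  simp only [Equiv.neg_apply]
  rw [aa_neg]
  push_cast
  ring_nf

theorem phi1_zero : phi1 0 = 0 := by
  have := phi1_neg 0
  rw [neg_zero] at this
  linarith

/-- strict convexity (tangent line) inequality -/
theorem phi_tangent {x y : ℝ} (hx : |x| ≤ 1) (hy : |y| ≤ 1) (hxy : x ≠ y) :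
    phi x + phi1 x * (y - x) < phi y := by
  have hs : Summable fun k : ℤ => aa k * Real.exp (x * k)
      + (k : ℝ) * (aa k * Real.exp (x * k)) * (y - x) :=
    (phi_summable hx).add ((phi1_summable hx).mul_right _)
  have e : phi x + phi1 x * (y - x) = ∑' k : ℤ, (aa k * Real.exp (x * k)
      + (k : ℝ) * (aa k * Real.exp (x * k)) * (y - x)) := by
    rw [(phi_summable hx).tsum_add ((phi1_summable hx).mul_right _), tsum_mul_right]
    rfl
  rw [e]
  refine Summable.tsum_lt_tsum (i := 1) (fun k => ?_) ?_ hs (phi_summable hy)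
  · have h1 := Real.add_one_le_exp ((y - x) * k)
    have h2 : Real.exp (y * k) = Real.exp (x * k) * Real.exp ((y - x) * k) := by
      rw [← Real.exp_add]; ring_nf
    rw [h2]
    have h3 : 0 < aa k * Real.exp (x * k) := mul_pos (aa_pos k) (Real.exp_pos _)
    nlinarith [mul_le_mul_of_nonneg_left h1 h3.le]
  · have hne : (y - x) * ((1 : ℤ) : ℝ) ≠ 0 := by
      simpa using sub_ne_zero.2 hxy.symm
    have h1 := Real.add_one_lt_exp hne
    have h2 : Real.exp (y * ((1 : ℤ) : ℝ))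
        = Real.exp (x * ((1 : ℤ) : ℝ)) * Real.exp ((y - x) * ((1 : ℤ) : ℝ)) := by
      rw [← Real.exp_add]; ring_nf
    rw [h2]
    have h3 : 0 < aa 1 * Real.exp (x * ((1 : ℤ) : ℝ)) := mul_pos (aa_pos _) (Real.exp_pos _)
    nlinarith [mul_lt_mul_of_pos_left h1 h3]

theorem phi_tangent_le {x y : ℝ} (hx : |x| ≤ 1) (hy : |y| ≤ 1) :
    phi x + phi1 x * (y - x) ≤ phi y := by
  rcases eq_or_ne x y with rfl | h
  · simp
  · exact (phi_tangent hx hy h).le

theorem phi_zero_lt {y : ℝ} (hy : |y| ≤ 1) (h0 : y ≠ 0) : phi 0 < phi y := by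
  have := phi_tangent (x := 0) (by simp) hy h0.symm
  rw [phi1_zero] at this
  linarith

theorem one_lt_phi_zero : 1 < phi 0 := by
  have hs : Summable fun k : ℤ => aa k * Real.exp (0 * k) := phi_summable (by simp)
  have h := hs.sum_le_tsum {0, 1} (fun k _ => (mul_pos (aa_pos k) (Real.exp_pos _)).le)
  rw [Finset.sum_pair (by norm_num)] at h
  have h1 := aa_pos 1
  simp only [aa_zero, zero_mul, Real.exp_zero, mul_one] at h
  unfold phi
  simp only [zero_mul, Real.exp_zero, mul_one]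
  linarith

theorem phi1_pos {x : ℝ} (hx0 : 0 < x) (hx : x ≤ 1) : 0 < phi1 x := by
  have hx' : |x| ≤ 1 := by rwa [abs_of_pos hx0]
  have h1 := phi_zero_lt hx' hx0.ne'
  have h2 := phi_tangent (x := x) (y := 0) hx' (by simp) hx0.ne'
  have h3 : 0 < phi1 x * x := by linarith
  exact pos_of_mul_pos_left h3 hx0.le

theorem phi_lt {x y : ℝ} (hx : 0 ≤ x) (hxy : x < y) (hy : y ≤ 1) : phi x < phi y := by
  have hx' : |x| ≤ 1 := by rw [abs_of_nonneg hx]; linarith
  have hy' : |y| ≤ 1 := by rw [abs_of_nonneg (by linarith)]; linarith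
  rcases hx.eq_or_lt with rfl | hx0
  · exact phi_zero_lt hy' hxy.ne'
  · have h1 := phi_tangent hx' hy' hxy.ne
    have h2 := phi1_pos hx0 (by linarith)
    nlinarith [mul_pos h2 (sub_pos.2 hxy)]

theorem phi_le {x y : ℝ} (hx : 0 ≤ x) (hxy : x ≤ y) (hy : y ≤ 1) : phi x ≤ phi y := by
  rcases hxy.eq_or_lt with rfl | h
  · exact le_rfl
  · exact (phi_lt hx h hy).le

theorem phi_abs (x : ℝ) : phi |x| = phi x := by
  rcases abs_cases x with ⟨h, -⟩ | ⟨h, -⟩
  · rw [h]
  · rw [h, phi_neg]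

theorem phi_zero_le {y : ℝ} (hy : |y| ≤ 1) : phi 0 ≤ phi y := by
  rcases eq_or_ne y 0 with rfl | h
  · exact le_rfl
  · exact (phi_zero_lt hy h).le

theorem phi_pos {y : ℝ} (hy : |y| ≤ 1) : 1 < phi y :=
  one_lt_phi_zero.trans_le (phi_zero_le hy)

theorem phi_cont : ContinuousOn phi (Set.Icc (-1) 1) := by
  refine continuousOn_tsum (u := fun k : ℤ => 1 / (1 + |(k : ℝ)|) ^ 3) (fun k => ?_)
    (summable_pow 3 (by norm_num)) fun k τ hτ => ?_
  · fun_prop
  · rw [Real.norm_eq_abs, abs_of_pos (mul_pos (aa_pos k) (Real.exp_pos _))]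
    exact exp_bd (abs_le.2 hτ) k

theorem phi1_cont : ContinuousOn phi1 (Set.Icc (-1) 1) := by
  refine continuousOn_tsum (u := fun k : ℤ => 1 / (1 + |(k : ℝ)|) ^ 2) (fun k => ?_)
    (summable_pow 2 (by norm_num)) fun k τ hτ => ?_
  · fun_prop
  · rw [Real.norm_eq_abs]
    exact exp_bd' (abs_le.2 hτ) k

theorem phi_analytic {τ : ℝ} (hτ : |τ| < 1) : AnalyticAt ℝ phi τ := by
  set U : Set ℂ := {z | |z.re| < 1} with hU
  have hUo : IsOpen U := isOpen_lt (by fun_prop) (by fun_prop)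
  have hd : DifferentiableOn ℂ (fun z : ℂ => ∑' k : ℤ, (aa k : ℂ) * Complex.exp (z * k)) U := by
    refine Complex.differentiableOn_tsum_of_summable_norm (u := fun k : ℤ => 1 / (1 + |(k : ℝ)|) ^ 3)
      (summable_pow 3 (by norm_num)) (fun k => ?_) hUo fun k z hz => ?_
    · fun_prop
    · rw [norm_mul, Complex.norm_exp, Complex.norm_real, Real.norm_eq_abs,
        abs_of_pos (aa_pos k)]
      have e : (z * (k : ℂ)).re = z.re * k := by simp
      rw [e]
      exact exp_bd (le_of_lt hz) k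
  have hmem : (τ : ℂ) ∈ U := by simpa [hU] using hτ
  have ha : AnalyticAt ℂ (fun z : ℂ => ∑' k : ℤ, (aa k : ℂ) * Complex.exp (z * k)) (τ : ℂ) :=
    hd.analyticAt (hUo.mem_nhds hmem)
  have hb := ha.re_ofReal
  refine hb.congr ?_
  refine Filter.Eventually.of_forall fun x => ?_
  unfold phi
  have e : ∀ k : ℤ, (aa k : ℂ) * Complex.exp ((x : ℂ) * k)
      = ((aa k * Real.exp (x * k) : ℝ) : ℂ) := by
    intro k; push_cast; rfl
  simp only [e]
  rw [← Complex.ofReal_tsum, Complex.ofReal_re]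

end Pool.Agent.W825.Sat
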