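import Mathlib
import Pool.Agent.W825.Sat.Phi

set_option autoImplicit false

/-!
# The support function of the sublevel sets of `φ(t₁) φ(t₂)`
-/

namespace Pool.Agent.W825.Sat

open Filter Topology Set

theorem geo_corner : ∃ η : ℝ, 0 < η ∧ η < 1 ∧ ∀ T : ℝ, 1 - η ≤ T → T ≤ 1 → ∀ t1 t2 : ℝ,
    |t1| ≤ 1 → |t2| ≤ 1 → phi t1 * phi t2 ≤ phi 1 * phi T → 4 * t1 + 3 * t2 ≤ 4 + 3 * T := by
  set P := phi 1 with hP
  set D := phi1 1 with hD
  have hPpos : 1 < P := phi_pos (by simp)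
  have hDpos : 0 < D := phi1_pos one_pos le_rfl
  have hcont : ContinuousWithinAt
      (fun T => P * phi1 T - 3 / 4 * D * P - 3 / 4 * D * phi1 T * (1 - T)) (Icc (-1) 1) 1 := by
    have h1 : ContinuousWithinAt phi1 (Icc (-1) 1) 1 := phi1_cont 1 (by simp)
    exact ((h1.const_mul P).sub continuousWithinAt_const).sub
      ((h1.const_mul (3 / 4 * D)).mul (continuousWithinAt_const.sub continuousWithinAt_id))
  have hpos : 0 < P * phi1 1 - 3 / 4 * D * P - 3 / 4 * D * phi1 1 * (1 - 1) := by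
    rw [← hD]; nlinarith [mul_pos hDpos (zero_lt_one.trans hPpos)]
  have hev := hcont.eventually (lt_mem_nhds hpos)
  rw [eventually_nhdsWithin_iff, Metric.eventually_nhds_iff] at hev
  obtain ⟨ε, hε, hev⟩ := hev
  set η := min (ε / 2) (min (1 / 2) (P / (2 * D))) with hη
  have hη1 : η ≤ ε / 2 := min_le_left _ _
  have hη2 : η ≤ 1 / 2 := (min_le_right _ _).trans (min_le_left _ _)
  have hη3 : η ≤ P / (2 * D) := (min_le_right _ _).trans (min_le_right _ _)
  have hη0 : 0 < η := by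
    refine lt_min (by linarith) (lt_min (by norm_num) (by positivity))
  refine ⟨η, hη0, by linarith, ?_⟩
  intro T hT1 hT2 t1 t2 ht1 ht2 hle
  rw [abs_le] at ht1 ht2
  by_contra hcon
  push Not at hcon
  have hTpos : 0 < T := by linarith
  have hg := @hev T (by rw [Real.dist_eq, abs_lt]; constructor <;> linarith)
    ⟨by linarith, hT2⟩
  have hTa : |T| ≤ 1 := by rw [abs_of_pos hTpos]; exact hT2
  set y := t2 - T with hy
  set x := 1 - t1 with hx
  have hx0 : 0 ≤ x := by linarith [ht1.2]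
  have hxy : 4 * x < 3 * y := by linarith
  have hy0 : 0 < y := by linarith
  have hy1 : y ≤ 1 - T := by linarith [ht2.2]
  have hyη : y ≤ η := by linarith
  have a1 : P - D * x ≤ phi t1 := by
    have := phi_tangent_le (x := 1) (y := t1) (by simp) (abs_le.2 ht1)
    rw [← hP, ← hD] at this
    have e : t1 - 1 = -x := by rw [hx]; ring
    rw [e] at this; linarith
  have a2 : phi T + phi1 T * y ≤ phi t2 := phi_tangent_le hTa (abs_le.2 ht2)
  have hd : 0 < phi1 T := phi1_pos hTpos hT2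
  have hp : 1 < phi T := phi_pos hTa
  have hpP : phi T ≤ P := phi_le hTpos.le hT2 le_rfl
  have hDη : D * η ≤ P / 2 := by
    rw [le_div_iff₀ (by positivity)] at hη3
    linarith
  have hDy : D * y ≤ D * η := mul_le_mul_of_nonneg_left hyη hDpos.le
  have b1 : P - 3 / 4 * D * y < phi t1 := by
    have : D * x < D * (3 / 4 * y) := mul_lt_mul_of_pos_left (by linarith) hDpos
    linarith
  have b0 : 0 < P - 3 / 4 * D * y := by linarith
  have b2 : 0 < phi T + phi1 T * y := by positivity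
  have c1 : (P - 3 / 4 * D * y) * (phi T + phi1 T * y) < phi t1 * phi t2 :=
    mul_lt_mul b1 a2 b2 (b0.trans b1).le
  have c2 : (P - 3 / 4 * D * y) * (phi T + phi1 T * y) < P * phi T := c1.trans_le hle
  have c3 : y * (P * phi1 T - 3 / 4 * D * phi T - 3 / 4 * D * phi1 T * y) < 0 := by linarith
  have c4 : P * phi1 T - 3 / 4 * D * phi T - 3 / 4 * D * phi1 T * y < 0 := by
    by_contra h
    push Not at h
    have := mul_nonneg hy0.le h
    linarith
  have c5 : D * phi T ≤ D * P := mul_le_mul_of_nonneg_left hpP hDpos.le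
  have c6 : D * phi1 T * y ≤ D * phi1 T * (1 - T) :=
    mul_le_mul_of_nonneg_left hy1 (by positivity)
  linarith

theorem geo_flat : ∃ δ : ℝ, 0 < δ ∧ 2 * δ < 1 ∧ phi (1 - δ) * phi (2 * δ) ≤ phi 1 * phi 0 := by
  set F : ℝ → ℝ := fun δ => phi1 (1 - δ) * phi (2 * δ) - 2 * phi (1 - δ) * phi1 (2 * δ)
    - 2 * δ * phi1 (1 - δ) * phi1 (2 * δ) with hF
  have m1 : MapsTo (fun δ : ℝ => 1 - δ) (Icc 0 (1 / 2)) (Icc (-1) 1) := by
    intro δ hδ; constructor <;> simp only <;> linarith [hδ.1, hδ.2]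
  have m2 : MapsTo (fun δ : ℝ => 2 * δ) (Icc 0 (1 / 2)) (Icc (-1) 1) := by
    intro δ hδ; constructor <;> simp only <;> linarith [hδ.1, hδ.2]
  have k1 : ContinuousOn (fun δ : ℝ => phi (1 - δ)) (Icc 0 (1 / 2)) :=
    phi_cont.comp (by fun_prop) m1
  have k2 : ContinuousOn (fun δ : ℝ => phi1 (1 - δ)) (Icc 0 (1 / 2)) :=
    phi1_cont.comp (by fun_prop) m1
  have k3 : ContinuousOn (fun δ : ℝ => phi (2 * δ)) (Icc 0 (1 / 2)) :=
    phi_cont.comp (by fun_prop) m2
  have k4 : ContinuousOn (fun δ : ℝ => phi1 (2 * δ)) (Icc 0 (1 / 2)) :=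
    phi1_cont.comp (by fun_prop) m2
  have kF : ContinuousOn F (Icc 0 (1 / 2)) := by
    rw [hF]
    exact ((k2.mul k3).sub ((continuousOn_const.mul k1).mul k4)).sub
      (((by fun_prop : ContinuousOn (fun δ : ℝ => 2 * δ) (Icc 0 (1 / 2))).mul k2).mul k4)
  have hF0 : 0 < F 0 := by
    simp only [hF, mul_zero, sub_zero, phi1_zero, zero_mul]
    exact mul_pos (phi1_pos one_pos le_rfl) (zero_lt_one.trans one_lt_phi_zero)
  have hev := (kF 0 (by simp)).eventually (lt_mem_nhds hF0)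
  rw [eventually_nhdsWithin_iff, Metric.eventually_nhds_iff] at hev
  obtain ⟨ε, hε, hev⟩ := hev
  set δ := min (ε / 2) (1 / 4) with hδ
  have h1 : δ ≤ ε / 2 := min_le_left _ _
  have h2 : δ ≤ 1 / 4 := min_le_right _ _
  have h0 : 0 < δ := lt_min (by linarith) (by norm_num)
  refine ⟨δ, h0, by linarith, ?_⟩
  have hg := @hev δ (by rw [Real.dist_eq, abs_lt]; constructor <;> linarith)
    ⟨by linarith, by linarith⟩
  simp only [hF] at hg
  have hx1 : |1 - δ| ≤ 1 := by rw [abs_of_pos (by linarith)]; linarith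
  have hx2 : |2 * δ| ≤ 1 := by rw [abs_of_pos (by linarith)]; linarith
  have t1 := phi_tangent_le (x := 1 - δ) (y := 1) hx1 (by simp)
  have t2 := phi_tangent_le (x := 2 * δ) (y := 0) hx2 (by simp)
  have e1 : (1 : ℝ) - (1 - δ) = δ := by ring
  rw [e1] at t1
  have p1 := phi_pos hx1
  have p2 := phi1_pos (x := 1 - δ) (by linarith) (by linarith)
  have p3 := phi_pos (y := 0) (by simp)
  have p4 : 0 < phi (1 - δ) + phi1 (1 - δ) * δ := by positivity
  have q1 : (phi (1 - δ) + phi1 (1 - δ) * δ) * (phi (2 * δ) + phi1 (2 * δ) * (0 - 2 * δ))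
      ≤ phi 1 * phi 0 :=
    (mul_le_mul_of_nonneg_left t2 p4.le).trans (mul_le_mul_of_nonneg_right t1 (by linarith))
  have q2 := mul_nonneg h0.le hg.le
  linarith

/-- the energy level -/
noncomputable def EE (lam : ℝ) : ℝ := 1 + (phi 0 ^ 2 - 1) / lam

/-- the value of the first threshold -/
noncomputable def lam0 : ℝ := (phi 0 ^ 2 - 1) / (phi 1 ^ 2 - 1)

/-- the property defining the support function in the direction `(4/5, 3/5)` -/
structure Supp (m : ℝ → ℝ) : Prop where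
  ge : ∀ lam : ℝ, 0 < lam → lam < 1 → ∀ t1 t2 : ℝ, |t1| ≤ 1 → |t2| ≤ 1 →
    phi t1 * phi t2 ≤ EE lam → (4 * t1 + 3 * t2) / 5 ≤ m lam
  ex : ∀ lam : ℝ, 0 < lam → lam < 1 → ∃ t1 t2 : ℝ, |t1| ≤ 1 ∧ |t2| ≤ 1 ∧
    phi t1 * phi t2 ≤ EE lam ∧ m lam = (4 * t1 + 3 * t2) / 5

theorem cpos : 0 < phi 0 ^ 2 - 1 := by nlinarith [one_lt_phi_zero]

theorem EE_lt {lam a : ℝ} (h : 0 < lam) (ha : 1 < a) :
    EE lam < a ↔ (phi 0 ^ 2 - 1) / (a - 1) < lam := by
  unfold EE
  rw [div_lt_iff₀ (by linarith : 0 < a - 1), ← lt_sub_iff_add_lt', div_lt_iff₀ h, mul_comm lam]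

theorem lt_EE {lam a : ℝ} (h : 0 < lam) (ha : 1 < a) :
    a < EE lam ↔ lam < (phi 0 ^ 2 - 1) / (a - 1) := by
  unfold EE
  rw [lt_div_iff₀ (by linarith : 0 < a - 1), ← sub_lt_iff_lt_add', lt_div_iff₀ h, mul_comm lam]

theorem lam0_pos : 0 < lam0 := by
  have h1 := phi_zero_lt (y := 1) (by simp) one_ne_zero
  have h2 := one_lt_phi_zero
  unfold lam0
  exact div_pos cpos (by nlinarith)

theorem supp_sat {m : ℝ → ℝ} (hm : Supp m) {lam : ℝ} (h0 : 0 < lam) (h1 : lam < 1)
    (h : m lam = 7 / 5) : lam ≤ lam0 := by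
  obtain ⟨t1, t2, ht1, ht2, hle, he⟩ := hm.ex lam h0 h1
  rw [h] at he
  have h3 := (abs_le.1 ht1).2
  have h4 := (abs_le.1 ht2).2
  have e1 : t1 = 1 := by linarith
  have e2 : t2 = 1 := by linarith
  subst e1 e2
  by_contra hcon
  push Not at hcon
  have h5 := phi_zero_lt (y := 1) (by simp) one_ne_zero
  have h6 := one_lt_phi_zero
  have := (EE_lt h0 (a := phi 1 ^ 2) (by nlinarith)).2 hcon
  nlinarith

theorem supp_lt {m : ℝ → ℝ} (hm : Supp m) {lam : ℝ} (h0 : lam0 < lam) (h1 : lam < 1) :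
    m lam < 7 / 5 := by
  have hp : 0 < lam := lam0_pos.trans h0
  obtain ⟨t1, t2, ht1, ht2, hle, he⟩ := hm.ex lam hp h1
  have h3 := (abs_le.1 ht1).2
  have h4 := (abs_le.1 ht2).2
  rcases (show m lam ≤ 7 / 5 by linarith).lt_or_eq with h | h
  · exact h
  · exact absurd (supp_sat hm hp h1 h) (not_le.2 h0)

theorem EE_anti {a b : ℝ} (ha : 0 < a) (hab : a ≤ b) : EE b ≤ EE a := by
  unfold EE
  have := div_le_div_of_nonneg_left cpos.le ha hab
  linarith

theorem supp_anti {m : ℝ → ℝ} (hm : Supp m) {a b : ℝ} (ha : 0 < a) (hab : a ≤ b) (hb : b < 1) :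
    m b ≤ m a := by
  obtain ⟨t1, t2, ht1, ht2, hle, he⟩ := hm.ex b (by linarith) hb
  rw [he]
  exact hm.ge a ha (by linarith) t1 t2 ht1 ht2 (hle.trans (EE_anti ha hab))

theorem supp_not_analytic {m : ℝ → ℝ} (hm : Supp m) :
    ∃ lam : ℝ, lam0 < lam ∧ lam < 1 ∧ ¬ AnalyticAt ℝ m lam := by
  by_contra hcon
  push Not at hcon
  obtain ⟨η, hη0, hη1, hcor⟩ := geo_corner
  obtain ⟨δ, hδ0, hδ1, hflat⟩ := geo_flat
  have hc := cpos
  have h10 : phi 0 < phi 1 := phi_zero_lt (by simp) one_ne_zero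
  have h00 := one_lt_phi_zero
  have h11 : 1 < phi 1 := by linarith
  have hη' : phi 0 < phi (1 - η) := phi_lt le_rfl (by linarith) (by linarith)
  have hη'' : phi (1 - η) < phi 1 := phi_lt (by linarith) (by linarith) le_rfl
  set lam1 := (phi 0 ^ 2 - 1) / (phi 1 * phi 0 - 1) with hlam1
  set lamη := (phi 0 ^ 2 - 1) / (phi 1 * phi (1 - η) - 1) with hlamη
  have p1 : 1 < phi 1 * phi 0 := by nlinarith
  have p2 : phi 1 * phi 0 < phi 1 * phi (1 - η) := mul_lt_mul_of_pos_left hη' (by linarith)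
  have p3 : phi 1 * phi (1 - η) < phi 1 ^ 2 := by
    rw [sq]; exact mul_lt_mul_of_pos_left hη'' (by linarith)
  have p0 : phi 0 ^ 2 < phi 1 * phi 0 := by nlinarith
  have l01 : lam0 < lamη := by
    unfold lam0
    rw [hlamη]
    exact div_lt_div_of_pos_left hc (by linarith) (by linarith)
  have l12 : lamη < lam1 := by
    rw [hlamη, hlam1]
    exact div_lt_div_of_pos_left hc (by linarith) (by linarith)
  have l1 : lam1 < 1 := by
    rw [hlam1, div_lt_one (by linarith)]; linarith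
  have hl0 := lam0_pos
  have E1 : EE lam1 = phi 1 * phi 0 := by
    unfold EE
    rw [hlam1, div_div_cancel₀ (by linarith)]; ring
  -- the value at `lam1`
  have hm1 : 4 / 5 < m lam1 := by
    have := hm.ge lam1 (by linarith) l1 (1 - δ) (2 * δ)
      (by rw [abs_of_pos (by linarith)]; linarith)
      (by rw [abs_of_pos (by linarith)]; linarith) (by rw [E1]; exact hflat)
    linarith
  -- the analytic functions
  have hin : ∀ lam ∈ Ioc lam0 lam1, 0 < (5 * m lam - 4) / 3 ∧ (5 * m lam - 4) / 3 < 1 := by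
    intro lam hl
    have a1 := supp_lt hm hl.1 (hl.2.trans_lt l1)
    have a2 := supp_anti hm (hl0.trans hl.1) hl.2 l1
    constructor <;> linarith
  have hf : AnalyticOnNhd ℝ (fun lam => phi 1 * phi ((5 * m lam - 4) / 3)) (Ioc lam0 lam1) := by
    intro lam hl
    have hml := hcon lam hl.1 (hl.2.trans_lt l1)
    have hi := hin lam hl
    have h1 : AnalyticAt ℝ phi ((5 * m lam - 4) / 3) :=
      phi_analytic (by rw [abs_of_pos hi.1]; exact hi.2)
    have h2 : AnalyticAt ℝ (fun lam => (5 * m lam - 4) / 3) lam :=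
      ((analyticAt_const.mul hml).sub analyticAt_const).div_const
    exact analyticAt_const.mul (AnalyticAt.comp (g := phi) h1 h2)
  have hg : AnalyticOnNhd ℝ EE (Ioc lam0 lam1) := by
    intro lam hl
    have hne : lam ≠ 0 := (hl0.trans hl.1).ne'
    unfold EE
    exact analyticAt_const.add (analyticAt_const.div analyticAt_id hne)
  have hpc : IsPreconnected (Ioc lam0 lam1) := isPreconnected_Ioc
  have hmid : (lam0 + lamη) / 2 ∈ Ioc lam0 lam1 := ⟨by linarith, by linarith⟩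
  have hev : (fun lam => phi 1 * phi ((5 * m lam - 4) / 3)) =ᶠ[𝓝 ((lam0 + lamη) / 2)] EE := by
    have hmem : Ioo lam0 lamη ∈ 𝓝 ((lam0 + lamη) / 2) :=
      Ioo_mem_nhds (by linarith) (by linarith)
    filter_upwards [hmem] with lam hl
    have hlp : 0 < lam := hl0.trans hl.1
    have b1 : EE lam < phi 1 ^ 2 := (EE_lt hlp (by nlinarith)).2 hl.1
    have b2 : phi 1 * phi (1 - η) < EE lam := (lt_EE hlp (by linarith)).2 hl.2
    have hct : ContinuousOn (fun T => phi 1 * phi T) (Icc (1 - η) 1) :=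
      continuousOn_const.mul (phi_cont.mono (Icc_subset_Icc (by linarith) le_rfl))
    obtain ⟨T, hT, hTE⟩ := intermediate_value_Icc (by linarith : 1 - η ≤ 1) hct
      ⟨b2.le, by rw [← sq]; exact b1.le⟩
    simp only at hTE
    have hTa : |T| ≤ 1 := by
      rw [abs_of_nonneg (by linarith [hT.1])]; exact hT.2
    have hmT : m lam = (4 + 3 * T) / 5 := by
      apply le_antisymm
      · obtain ⟨t1, t2, ht1, ht2, hle, he⟩ := hm.ex lam hlp (by linarith [hl.2])
        rw [he]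
        have := hcor T hT.1 hT.2 t1 t2 ht1 ht2 (by rw [hTE]; exact hle)
        linarith
      · have := hm.ge lam hlp (by linarith [hl.2]) 1 T (by simp) hTa hTE.le
        linarith
    have : (5 * m lam - 4) / 3 = T := by rw [hmT]; ring
    rw [this]
    exact hTE
  have heq := hf.eqOn_of_preconnected_of_eventuallyEq hg hpc hmid hev
    (show lam1 ∈ Ioc lam0 lam1 from ⟨by linarith, le_rfl⟩)
  simp only at heq
  rw [E1] at heq
  have h5 := mul_left_cancel₀ (by linarith : phi 1 ≠ 0) heq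
  have hi := hin lam1 ⟨by linarith, le_rfl⟩
  have := phi_zero_lt (y := (5 * m lam1 - 4) / 3) (by rw [abs_of_pos hi.1]; exact hi.2.le) hi.1.ne'
  linarith

end Pool.Agent.W825.Sat
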