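import Mathlib

set_option autoImplicit false

/-!
# Subadditive functions on a group: homogenisation and a one-step Hahn-Banach argument
-/

namespace Pool.Agent.W825.Sat

open Filter Topology

section hom

variable {S : Type} [AddCommGroup S]

theorem hom_exists (μ : S → ℝ) (h0 : ∀ x, 0 ≤ μ x) (hadd : ∀ x y, μ (x + y) ≤ μ x + μ y) :
    ∃ ν : S → ℝ, (∀ x, Tendsto (fun k : ℕ => μ (k • x) / k) atTop (𝓝 (ν x))) ∧
      (∀ x, ν x ≤ μ x) ∧ ∀ x, 0 ≤ ν x := by
  have hs : ∀ x, Subadditive (fun k : ℕ => μ (k • x)) := by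
    intro x m n
    simp only [add_smul]
    exact hadd _ _
  have hb : ∀ x, BddBelow (Set.range fun k : ℕ => μ (k • x) / k) := by
    intro x
    refine ⟨0, ?_⟩
    rintro _ ⟨k, rfl⟩
    exact div_nonneg (h0 _) (Nat.cast_nonneg _)
  refine ⟨fun x => (hs x).lim, fun x => (hs x).tendsto_lim (hb x), fun x => ?_, fun x => ?_⟩
  · have := (hs x).lim_le_div (hb x) (n := 1) one_ne_zero
    simpa using this
  · refine ge_of_tendsto' ((hs x).tendsto_lim (hb x)) fun k => ?_
    exact div_nonneg (h0 _) (Nat.cast_nonneg _)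

variable {μ ν : S → ℝ} (ht : ∀ x, Tendsto (fun k : ℕ => μ (k • x) / k) atTop (𝓝 (ν x)))

include ht in
theorem hom_add (hadd : ∀ x y, μ (x + y) ≤ μ x + μ y) (x y : S) : ν (x + y) ≤ ν x + ν y := by
  refine le_of_tendsto_of_tendsto' (ht (x + y)) ((ht x).add (ht y)) fun k => ?_
  rw [← add_div]
  refine div_le_div_of_nonneg_right ?_ (Nat.cast_nonneg _)
  rw [smul_add]
  exact hadd _ _

include ht in
theorem hom_zero : ν 0 = 0 := by
  have h : Tendsto (fun k : ℕ => μ (k • (0 : S)) / k) atTop (𝓝 0) := by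
    simp only [smul_zero]
    exact tendsto_const_div_atTop_nhds_zero_nat (μ 0)
  exact tendsto_nhds_unique (ht 0) h

include ht in
theorem hom_nsmul (n : ℕ) (x : S) : ν (n • x) = n * ν x := by
  rcases Nat.eq_zero_or_pos n with rfl | hn
  · simp [hom_zero ht]
  have h1 : Tendsto (fun k : ℕ => k * n) atTop atTop :=
    tendsto_id.atTop_mul_const' hn
  have h2 := ((ht x).comp h1).const_mul (n : ℝ)
  refine tendsto_nhds_unique (ht (n • x)) (h2.congr' ?_)
  filter_upwards [eventually_gt_atTop 0] with k hk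
  simp only [Function.comp]
  rw [mul_smul]
  have hk' : (k : ℝ) ≠ 0 := by positivity
  have hn' : (n : ℝ) ≠ 0 := by positivity
  push_cast
  field_simp

include ht in
theorem hom_le_zsmul (hadd : ∀ x y, μ (x + y) ≤ μ x + μ y) (k : ℤ) (v : S) :
    k * ν v ≤ ν (k • v) := by
  rcases Int.eq_nat_or_neg k with ⟨n, rfl | rfl⟩
  · rw [natCast_zsmul, hom_nsmul ht]; simp
  · have h1 := hom_add ht hadd (n • v) (-(n : ℤ) • v)
    rw [neg_smul, natCast_zsmul, add_neg_cancel, hom_zero ht, hom_nsmul ht] at h1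
    rw [neg_smul, natCast_zsmul]
    push_cast
    linarith

include ht in
theorem hom_hb (hadd : ∀ x y, μ (x + y) ≤ μ x + μ y) (u v : S) :
    ∃ c : ℝ, ∀ k m : ℤ, k * ν v + m * c ≤ ν (k • v + m • u) := by
  have key : ∀ (k k' : ℤ) (m m' : ℕ), 0 < m → 0 < m' →
      (k * ν v - ν (k • v - m • u)) / m ≤ (ν (k' • v + m' • u) - k' * ν v) / m' := by
    intro k k' m m' hm hm'
    have hmR : (0 : ℝ) < m := by exact_mod_cast hm
    have hmR' : (0 : ℝ) < m' := by exact_mod_cast hm'
    rw [div_le_div_iff₀ hmR hmR']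
    have h1 := hom_add ht hadd (m' • (k • v - m • u)) (m • (k' • v + m' • u))
    rw [hom_nsmul ht, hom_nsmul ht] at h1
    have h2 : m' • (k • v - m • u) + m • (k' • v + m' • u)
        = ((m' : ℤ) * k + m * k') • v := by
      simp only [← natCast_zsmul]
      module
    rw [h2] at h1
    have h3 := hom_le_zsmul ht hadd ((m' : ℤ) * k + m * k') v
    push_cast at h3
    nlinarith [h1, h3]
  set A : Set ℝ := {a | ∃ (k : ℤ) (m : ℕ), 0 < m ∧ a = (k * ν v - ν (k • v - m • u)) / m}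
    with hA
  have hne : A.Nonempty := ⟨_, 0, 1, one_pos, rfl⟩
  have hbd : ∀ (k' : ℤ) (m' : ℕ), 0 < m' → ∀ a ∈ A,
      a ≤ (ν (k' • v + m' • u) - k' * ν v) / m' := by
    rintro k' m' hm' a ⟨k, m, hm, rfl⟩
    exact key k k' m m' hm hm'
  have hbdd : BddAbove A := ⟨_, hbd 0 1 one_pos⟩
  refine ⟨sSup A, fun k m => ?_⟩
  rcases Int.eq_nat_or_neg m with ⟨n, rfl | rfl⟩
  · rcases Nat.eq_zero_or_pos n with rfl | hn
    · simpa using hom_le_zsmul ht hadd k v
    · have h1 := csSup_le hne (hbd k n hn)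
      have hnR : (0 : ℝ) < n := by exact_mod_cast hn
      rw [le_div_iff₀ hnR] at h1
      rw [natCast_zsmul]
      push_cast
      linarith
  · rcases Nat.eq_zero_or_pos n with rfl | hn
    · simpa using hom_le_zsmul ht hadd k v
    · have h1 : (k * ν v - ν (k • v - n • u)) / n ≤ sSup A := le_csSup hbdd ⟨k, n, hn, rfl⟩
      have hnR : (0 : ℝ) < n := by exact_mod_cast hn
      rw [div_le_iff₀ hnR] at h1
      rw [neg_smul, natCast_zsmul, ← sub_eq_add_neg]
      push_cast
      linarith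

end hom

end Pool.Agent.W825.Sat
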