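import Mathlib
import Pool.Agent.W825.Sat.Defs

set_option autoImplicit false

/-!
# Sums over walks
-/

namespace Pool.Agent.W825.Sat

open scoped ENNReal

section gen

variable {S : Type} (K : S → S → ℝ≥0∞)

/-- sum over the walks with `n` steps from `x` to `y` -/
noncomputable def wn (n : ℕ) (x y : S) : ℝ≥0∞ :=
  ∑' γ : {γ : Fin (n + 1) → S // γ 0 = x ∧ γ (Fin.last n) = y},
    ∏ i : Fin n, K (γ.1 i.castSucc) (γ.1 i.succ)

open Classical in
theorem wn_eq (n : ℕ) (x y : S) : wn K n x y =
    ∑' γ : Fin (n + 1) → S, if γ 0 = x ∧ γ (Fin.last n) = y then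
      ∏ i : Fin n, K (γ i.castSucc) (γ i.succ) else 0 := by
  unfold wn
  have := tsum_subtype (β := Fin (n + 1) → S) {γ | γ 0 = x ∧ γ (Fin.last n) = y}
    (fun γ => ∏ i : Fin n, K (γ i.castSucc) (γ i.succ))
  refine Eq.trans this ?_
  refine tsum_congr fun γ => ?_
  rw [Set.indicator_apply]
  rfl

theorem wn_zero_self (x : S) : wn K 0 x x = 1 := by
  classical
  rw [wn_eq, tsum_eq_single (fun _ => x)]
  · simp
  · intro γ hγ
    rw [if_neg]
    rintro ⟨h1, -⟩
    apply hγ
    funext i
    rw [Fin.fin_one_eq_zero i, h1]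

theorem wn_zero_ne {x y : S} (h : x ≠ y) : wn K 0 x y = 0 := by
  classical
  rw [wn_eq, ENNReal.tsum_eq_zero]
  intro γ
  rw [if_neg]
  rintro ⟨h1, h2⟩
  apply h
  rw [← h1, ← h2]
  rfl

theorem wn_succ (n : ℕ) (x y : S) : wn K (n + 1) x y = ∑' z : S, wn K n x z * K z y := by
  classical
  rw [wn_eq]
  rw [← (Fin.snocEquiv (fun _ : Fin (n + 2) => S)).tsum_eq]
  rw [ENNReal.tsum_prod']
  simp only [wn_eq]
  rw [tsum_eq_single y]
  · simp only [← ENNReal.tsum_mul_right]
    rw [ENNReal.tsum_comm]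
    refine tsum_congr fun γ => ?_
    rw [tsum_eq_single (γ (Fin.last n))]
    · simp only [Fin.snocEquiv_apply]
      have h0 : (Fin.snoc γ y : Fin (n + 2) → S) 0 = γ 0 := by
        have : (0 : Fin (n + 2)) = Fin.castSucc (0 : Fin (n + 1)) := rfl
        rw [this, Fin.snoc_castSucc]
      have h1 : (Fin.snoc γ y : Fin (n + 2) → S) (Fin.last (n + 1)) = y := by
        rw [Fin.snoc_last]
      rw [h0, h1]
      by_cases hx : γ 0 = x
      · rw [if_pos ⟨hx, rfl⟩, if_pos ⟨hx, trivial⟩, Fin.prod_univ_castSucc]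
        congr 1
        · refine Finset.prod_congr rfl fun i _ => ?_
          have e1 : (Fin.snoc γ y : Fin (n + 2) → S) i.castSucc.castSucc = γ i.castSucc := by
            rw [Fin.snoc_castSucc]
          have e2 : (Fin.snoc γ y : Fin (n + 2) → S) i.castSucc.succ = γ i.succ := by
            rw [Fin.succ_castSucc, Fin.snoc_castSucc]
          rw [e1, e2]
        · have e1 : (Fin.snoc γ y : Fin (n + 2) → S) (Fin.last n).castSucc = γ (Fin.last n) := by
            rw [Fin.snoc_castSucc]
          have e2 : (Fin.snoc γ y : Fin (n + 2) → S) (Fin.last n).succ = y := by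
            rw [Fin.succ_last, Fin.snoc_last]
          rw [e1, e2]
      · rw [if_neg (fun h => hx h.1), if_neg (fun h => hx h.1), zero_mul]
    · intro z hz
      rw [if_neg (fun h => hz h.2.symm), zero_mul]
  · intro z hz
    rw [ENNReal.tsum_eq_zero]
    intro γ
    simp only [Fin.snocEquiv_apply]
    rw [if_neg]
    rintro ⟨-, h⟩
    rw [Fin.snoc_last] at h
    exact hz h

theorem wn_one (x y : S) : wn K 1 x y = K x y := by
  rw [wn_succ, tsum_eq_single x, wn_zero_self, one_mul]
  intro z hz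
  rw [wn_zero_ne K hz.symm, zero_mul]

theorem wn_mul_le (n m : ℕ) (x y z : S) : wn K n x z * wn K m z y ≤ wn K (n + m) x y := by
  induction m generalizing y with
  | zero =>
    by_cases h : z = y
    · subst h; rw [wn_zero_self, mul_one]; rfl
    · rw [wn_zero_ne K h, mul_zero]; exact zero_le
  | succ m ih =>
    rw [wn_succ, ← ENNReal.tsum_mul_left, ← add_assoc, wn_succ]
    refine ENNReal.tsum_le_tsum fun w => ?_
    rw [← mul_assoc]
    exact mul_le_mul_left (ih w) _

end gen

end Pool.Agent.W825.Sat
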