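import Mathlib
import Pool.Agent.W825.Sat.Walk

set_option autoImplicit false

/-!
# Translation invariant kernels
-/

namespace Pool.Agent.W825.Sat

open scoped ENNReal

section grp

variable {S : Type} [AddCommGroup S] (K : S → S → ℝ≥0∞)

theorem wn_shift (hK : ∀ x y z, K (x + z) (y + z) = K x y) (n : ℕ) (x y z : S) :
    wn K n (x + z) (y + z) = wn K n x y := by
  induction n generalizing y with
  | zero =>
    by_cases h : x = y
    · subst h; rw [wn_zero_self, wn_zero_self]
    · rw [wn_zero_ne K h, wn_zero_ne K (fun h' => h (add_right_cancel h'))]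
  | succ n ih =>
    rw [wn_succ, wn_succ, ← (Equiv.addRight z).tsum_eq]
    refine tsum_congr fun w => ?_
    simp only [Equiv.coe_addRight]
    rw [ih, hK]

theorem wn_conv (hK : ∀ x y z, K (x + z) (y + z) = K x y) (n m : ℕ) (x y : S) :
    wn K n 0 x * wn K m 0 y ≤ wn K (n + m) 0 (x + y) := by
  have h := wn_mul_le K n m 0 (x + y) x
  have h2 := wn_shift K hK m 0 y x
  rw [zero_add, add_comm y x] at h2
  rwa [h2] at h

/-- the exponential transform of the walk kernel -/
theorem wn_transf (hK : ∀ x y z, K (x + z) (y + z) = K x y) (e : S → ℝ≥0∞)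
    (he : ∀ x y, e (x + y) = e x * e y) (he0 : e 0 = 1) (n : ℕ) :
    ∑' x, e x * wn K n 0 x = (∑' x, e x * K 0 x) ^ n := by
  induction n with
  | zero =>
    rw [tsum_eq_single 0, wn_zero_self, he0, pow_zero, one_mul]
    intro x hx
    rw [wn_zero_ne K hx.symm, mul_zero]
  | succ n ih =>
    rw [pow_succ, ← ih, ← ENNReal.tsum_mul_right]
    simp only [wn_succ, ← ENNReal.tsum_mul_left]
    rw [ENNReal.tsum_comm]
    refine tsum_congr fun z => ?_
    rw [← (Equiv.addRight z).tsum_eq]
    refine tsum_congr fun y => ?_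
    simp only [Equiv.coe_addRight]
    have h := hK 0 y z
    rw [zero_add] at h
    rw [h, he]
    ring

/-- bound for the walk kernel from the exponential transform -/
theorem wn_le_of_transf (hK : ∀ x y z, K (x + z) (y + z) = K x y) (e : S → ℝ≥0∞)
    (he : ∀ x y, e (x + y) = e x * e y) (he0 : e 0 = 1) (n : ℕ) (x : S) :
    e x * wn K n 0 x ≤ (∑' x, e x * K 0 x) ^ n := by
  rw [← wn_transf K hK e he he0]
  exact ENNReal.le_tsum x

end grp

end Pool.Agent.W825.Sat
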