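import Mathlib
import Pool.Agent.W825.Sat.Defs
import Pool.Agent.W825.Sat.Trans
import Pool.Agent.W825.Sat.Hom
import Pool.Agent.W825.Sat.Geo

set_option autoImplicit false

/-!
# The example: `d = 2`, the `ℓ¹` norm and a product prefactor
-/

namespace Pool.Agent.W825.Sat

open Filter Topology Set
open scoped ENNReal

/-- the `ℓ¹` norm on `ℝ²` -/
noncomputable def l1 (v : Fin 2 → ℝ) : ℝ := ∑ i, |v i|

theorem l1_eq (v : Fin 2 → ℝ) : l1 v = |v 0| + |v 1| := by
  unfold l1; rw [Fin.sum_univ_two]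

theorem l1_lattice : LatticeNorm l1 where
  pos := by
    intro v hv
    rw [l1_eq]
    by_contra h
    push Not at h
    have h0 := abs_nonneg (v 0)
    have h1 := abs_nonneg (v 1)
    apply hv
    funext i
    have e0 : v 0 = 0 := abs_eq_zero.1 (by linarith)
    have e1 : v 1 = 0 := abs_eq_zero.1 (by linarith)
    fin_cases i
    · exact e0
    · exact e1
  smul := by
    intro a v
    simp only [l1_eq, Pi.smul_apply, smul_eq_mul, abs_mul]
    ring
  add_le := by
    intro v w
    simp only [l1_eq, Pi.add_apply]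
    have := abs_add_le (v 0) (w 0)
    have := abs_add_le (v 1) (w 1)
    linarith
  perm := by
    intro π v
    unfold l1
    exact Equiv.sum_comp π (fun i => |v i|)
  refl := by
    intro j v
    unfold l1
    refine Finset.sum_congr rfl fun i _ => ?_
    by_cases h : i = j
    · subst h; simp
    · rw [Function.update_of_ne h]

/-- the normalisation -/
noncomputable def kap : ℝ := 1 / (phi 0 ^ 2 - 1)

theorem kap_pos : 0 < kap := by
  unfold kap
  have := cpos
  positivity

/-- the prefactor -/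
noncomputable def psi (x : Site 2) : ℝ := kap / ∏ i, (1 + |(x i : ℝ)|) ^ 3

theorem psi_pos (x : Site 2) : 0 < psi x := by
  unfold psi
  have := kap_pos
  refine div_pos this (Finset.prod_pos fun i _ => ?_)
  positivity

theorem log_psi (x : Site 2) : Real.log (psi x)
    = Real.log kap - 3 * Real.log (1 + |(x 0 : ℝ)|) - 3 * Real.log (1 + |(x 1 : ℝ)|) := by
  unfold psi
  have h0 : (0 : ℝ) < 1 + |(x 0 : ℝ)| := by positivity
  have h1 : (0 : ℝ) < 1 + |(x 1 : ℝ)| := by positivity
  rw [Fin.prod_univ_two, Real.log_div kap_pos.ne' (by positivity),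
    Real.log_mul (by positivity) (by positivity), Real.log_pow, Real.log_pow]
  push_cast
  ring

theorem l1_tendsto : Tendsto (fun x : Site 2 => l1 (emb x)) cofinite atTop := by
  have h : Tendsto (fun x : Site 2 => ‖x‖) cofinite atTop := by
    rw [← Filter.cocompact_eq_cofinite]
    exact tendsto_norm_cocompact_atTop
  refine tendsto_atTop_mono (fun x => ?_) h
  rw [l1_eq, pi_norm_le_iff_of_nonneg (by positivity)]
  intro i
  simp only [emb]
  fin_cases i
  · simp only [Fin.zero_eta, Int.norm_eq_abs]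
    have := abs_nonneg ((x 1 : ℝ))
    linarith
  · simp only [Fin.mk_one, Int.norm_eq_abs]
    have := abs_nonneg ((x 0 : ℝ))
    linarith

theorem psi_pref : Prefactor l1 psi where
  nonneg x := (psi_pos x).le
  pos x _ := psi_pos x
  sub := by
    have h1 : Tendsto (fun N : ℝ => |Real.log kap| / N) atTop (𝓝 0) :=
      tendsto_const_nhds.div_atTop tendsto_id
    have h2 : Tendsto (fun N : ℝ => Real.log (1 + N) / N) atTop (𝓝 0) := by
      have h3 : Tendsto (fun N : ℝ => Real.log (1 + N) / (1 + N)) atTop (𝓝 0) := by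
        have h4 : Tendsto (fun N : ℝ => Real.log N / N) atTop (𝓝 0) := by
          have := Real.isLittleO_log_id_atTop.tendsto_div_nhds_zero
          exact this
        exact h4.comp (tendsto_atTop_add_const_left _ _ tendsto_id)
      have h5 : Tendsto (fun N : ℝ => (1 + N) / N) atTop (𝓝 1) := by
        have h6 : Tendsto (fun N : ℝ => 1 / N + 1) atTop (𝓝 (0 + 1)) :=
          (tendsto_const_nhds.div_atTop tendsto_id).add_const _
        rw [zero_add] at h6
        refine h6.congr' ?_
        filter_upwards [eventually_gt_atTop 0] with N hN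
        field_simp
      have h7 := h3.mul h5
      rw [zero_mul] at h7
      refine h7.congr' ?_
      filter_upwards [eventually_gt_atTop 0] with N hN
      field_simp
    have h3 := (h1.add (h2.const_mul 6)).comp l1_tendsto
    rw [mul_zero, add_zero] at h3
    refine squeeze_zero_norm' ?_ h3
    filter_upwards [l1_tendsto.eventually (eventually_gt_atTop 0)] with x hx
    simp only [Function.comp]
    rw [Real.norm_eq_abs, abs_div, abs_of_pos hx, ← mul_div_assoc, ← add_div]
    refine div_le_div_of_nonneg_right ?_ hx.le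
    rw [log_psi]
    have a0 := abs_nonneg (x 0 : ℝ)
    have a1 := abs_nonneg (x 1 : ℝ)
    have e : l1 (emb x) = |(x 0 : ℝ)| + |(x 1 : ℝ)| := l1_eq _
    have b0 : Real.log (1 + |(x 0 : ℝ)|) ≤ Real.log (1 + l1 (emb x)) :=
      Real.log_le_log (by positivity) (by linarith)
    have b1 : Real.log (1 + |(x 1 : ℝ)|) ≤ Real.log (1 + l1 (emb x)) :=
      Real.log_le_log (by positivity) (by linarith)
    have c0 : 0 ≤ Real.log (1 + |(x 0 : ℝ)|) := Real.log_nonneg (by linarith)
    have c1 : 0 ≤ Real.log (1 + |(x 1 : ℝ)|) := Real.log_nonneg (by linarith)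
    have d := abs_le.1 (le_refl |Real.log kap|)
    rw [abs_le]
    constructor <;> linarith [d.1, d.2]
  perm := by
    intro π x
    unfold psi
    rw [Equiv.prod_comp π (fun i => (1 + |(x i : ℝ)|) ^ 3)]
  refl := by
    intro j x
    unfold psi
    congr 1
    refine Finset.prod_congr rfl fun i _ => ?_
    by_cases h : i = j
    · subst h; simp
    · rw [Function.update_of_ne h]

theorem J_eq (x : Site 2) : J l1 psi 0 x = kap * (aa (x 0) * aa (x 1) - if x = 0 then 1 else 0) := by
  unfold J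
  by_cases h : x = 0
  · subst h; simp [aa_zero]
  · rw [if_neg (Ne.symm h), if_neg h, sub_zero]
    unfold psi aa
    rw [l1_eq, Fin.prod_univ_two]
    simp only [emb, Pi.sub_apply, Pi.zero_apply, zero_sub, Int.cast_neg, abs_neg]
    rw [neg_add, Real.exp_add]
    field_simp

theorem J_nonneg (x y : Site 2) : 0 ≤ J l1 psi x y := by
  unfold J
  split_ifs
  · exact le_rfl
  · exact (mul_pos (psi_pos _) (Real.exp_pos _)).le

/-- the scalar product with a lattice site -/
noncomputable def dot (t0 t1 : ℝ) (x : Site 2) : ℝ := t0 * x 0 + t1 * x 1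

theorem dot_add (t0 t1 : ℝ) (x y : Site 2) : dot t0 t1 (x + y) = dot t0 t1 x + dot t0 t1 y := by
  unfold dot; simp only [Pi.add_apply]; push_cast; ring

theorem dot_zero (t0 t1 : ℝ) : dot t0 t1 0 = 0 := by simp [dot]

theorem hasSum_prod {f g : ℤ → ℝ} {a b : ℝ} (hf : HasSum f a) (hg : HasSum g b)
    (hf0 : ∀ k, 0 ≤ f k) (hg0 : ∀ k, 0 ≤ g k) :
    HasSum (fun x : Site 2 => f (x 0) * g (x 1)) (a * b) := by
  have h := hf.mul hg (hf.summable.mul_of_nonneg hg.summable hf0 hg0)
  rw [← (finTwoArrowEquiv ℤ).hasSum_iff] at h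
  exact h

theorem J_transf {t0 t1 : ℝ} (h0 : |t0| ≤ 1) (h1 : |t1| ≤ 1) :
    HasSum (fun x : Site 2 => Real.exp (dot t0 t1 x) * J l1 psi 0 x)
      (kap * (phi t0 * phi t1 - 1)) := by
  have a := hasSum_prod (phi_summable h0).hasSum (phi_summable h1).hasSum
    (fun k => (mul_pos (aa_pos k) (Real.exp_pos _)).le)
    (fun k => (mul_pos (aa_pos k) (Real.exp_pos _)).le)
  have b : HasSum (fun x : Site 2 => if x = 0 then (1 : ℝ) else 0) 1 := hasSum_ite_eq 0 1
  have c := (a.sub b).mul_left kap
  have e : (fun x : Site 2 => Real.exp (dot t0 t1 x) * J l1 psi 0 x)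
      = fun x : Site 2 => kap * ((aa (x 0) * Real.exp (t0 * x 0)) *
        (aa (x 1) * Real.exp (t1 * x 1)) - if x = 0 then (1 : ℝ) else 0) := by
    funext x
    rw [J_eq]
    by_cases h : x = 0
    · subst h; simp [dot_zero, aa_zero]
    · rw [if_neg h]
      unfold dot
      rw [Real.exp_add]
      ring
  rw [e]
  exact c

theorem J_sum : HasSum (fun x : Site 2 => J l1 psi 0 x) 1 := by
  have h := J_transf (t0 := 0) (t1 := 0) (by simp) (by simp)
  have e : kap * (phi 0 * phi 0 - 1) = 1 := by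
    unfold kap
    have := cpos
    rw [← sq, one_div, inv_mul_cancel₀ this.ne']
  rw [e] at h
  simpa [dot] using h

/-- the kernel -/
noncomputable def KK (lam : ℝ) (x y : Site 2) : ℝ≥0∞ := ENNReal.ofReal (lam * J l1 psi x y)

theorem KK_shift (lam : ℝ) (x y z : Site 2) : KK lam (x + z) (y + z) = KK lam x y := by
  unfold KK J
  simp only [add_left_inj, add_sub_add_right_eq_sub]

/-- the exponential weight -/
noncomputable def ee (t0 t1 : ℝ) (x : Site 2) : ℝ≥0∞ := ENNReal.ofReal (Real.exp (dot t0 t1 x))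

theorem ee_add (t0 t1 : ℝ) (x y : Site 2) : ee t0 t1 (x + y) = ee t0 t1 x * ee t0 t1 y := by
  unfold ee
  rw [dot_add, Real.exp_add, ENNReal.ofReal_mul (Real.exp_pos _).le]

theorem ee_zero (t0 t1 : ℝ) : ee t0 t1 0 = 1 := by simp [ee, dot_zero]

theorem KK_transf {lam : ℝ} (hl : 0 ≤ lam) {t0 t1 : ℝ} (h0 : |t0| ≤ 1) (h1 : |t1| ≤ 1) :
    ∑' x, ee t0 t1 x * KK lam 0 x
      = ENNReal.ofReal (lam * (kap * (phi t0 * phi t1 - 1))) := by
  have h := (J_transf h0 h1).mul_left lam
  rw [← h.tsum_eq, ENNReal.ofReal_tsum_of_nonneg _ h.summable]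
  · refine tsum_congr fun x => ?_
    unfold ee KK
    rw [← ENNReal.ofReal_mul (Real.exp_pos _).le]
    ring_nf
  · intro x
    have := J_nonneg 0 x
    positivity

theorem KK_transf_zero {lam : ℝ} (hl : 0 ≤ lam) :
    ∑' x, ee 0 0 x * KK lam 0 x = ENNReal.ofReal lam := by
  rw [KK_transf hl (by simp) (by simp)]
  have e : kap * (phi 0 * phi 0 - 1) = 1 := by
    unfold kap
    have := cpos
    rw [← sq, one_div, inv_mul_cancel₀ this.ne']
  rw [e, mul_one]

theorem EE_iff {lam a : ℝ} (hl : 0 < lam) : lam * (kap * (a - 1)) ≤ 1 ↔ a ≤ EE lam := by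
  unfold kap EE
  have := cpos
  rw [← sub_le_iff_le_add', le_div_iff₀ hl, one_div, inv_mul_eq_div, mul_div_assoc',
    div_le_one this, mul_comm]

theorem EE_iff' {lam a : ℝ} (hl : 0 < lam) : lam * (kap * (a - 1)) < 1 ↔ a < EE lam := by
  unfold kap EE
  have := cpos
  rw [← sub_lt_iff_lt_add', lt_div_iff₀ hl, one_div, inv_mul_eq_div, mul_div_assoc',
    div_lt_one this, mul_comm]

theorem G_eq (lam : ℝ) (x y : Site 2) : G l1 psi lam x y = ∑' n, wn (KK lam) n x y := rfl

theorem sum_G {lam : ℝ} (hl : 0 ≤ lam) :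
    ∑' x : Site 2, G l1 psi lam 0 x = (1 - ENNReal.ofReal lam)⁻¹ := by
  simp only [G_eq]
  rw [ENNReal.tsum_comm, ← ENNReal.tsum_geometric]
  refine tsum_congr fun n => ?_
  rw [← KK_transf_zero hl, ← wn_transf (KK lam) (KK_shift lam) (ee 0 0) (ee_add 0 0)
    (ee_zero 0 0)]
  refine tsum_congr fun x => ?_
  simp [ee, dot]

theorem lamC_eq : lamC l1 psi = 1 := by
  unfold lamC
  have : {lam : ℝ | 0 ≤ lam ∧ ∑' x : Site 2, G l1 psi lam 0 x < ⊤} = Ico 0 1 := by
    ext lam
    simp only [Set.mem_ofPred_eq, mem_Ico]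
    refine and_congr_right fun hl => ?_
    rw [sum_G hl, ENNReal.inv_lt_top, tsub_pos_iff_lt, ENNReal.ofReal_lt_one]
  rw [this]
  exact csSup_Ico one_pos

end Pool.Agent.W825.Sat
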