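import Mathlib
import Pool.Agent.W825.Sat.Model

set_option autoImplicit false

/-!
# The inverse correlation length of the example
-/

namespace Pool.Agent.W825.Sat

open Filter Topology Set
open scoped ENNReal

/-- the supremum over the number of steps -/
noncomputable def MM (lam : ℝ) (x : Site 2) : ℝ≥0∞ := ⨆ n, wn (KK lam) n 0 x

theorem MM_le_G (lam : ℝ) (x : Site 2) : MM lam x ≤ G l1 psi lam 0 x := by
  rw [G_eq]
  exact iSup_le fun n => ENNReal.le_tsum n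

theorem MM_conv (lam : ℝ) (x y : Site 2) : MM lam x * MM lam y ≤ MM lam (x + y) := by
  unfold MM
  rw [ENNReal.iSup_mul]
  refine iSup_le fun n => ?_
  rw [ENNReal.mul_iSup]
  refine iSup_le fun m => ?_
  exact (wn_conv (KK lam) (KK_shift lam) n m x y).trans (le_iSup (fun n => wn (KK lam) n 0 (x + y)) (n + m))

/-- one step contributes -/
theorem MM_ge (lam : ℝ) (x : Site 2) : KK lam 0 x ≤ MM lam x := by
  rw [← wn_one (KK lam)]
  exact le_iSup (fun n => wn (KK lam) n 0 x) 1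

theorem MM_zero_ge (lam : ℝ) : 1 ≤ MM lam 0 := by
  rw [← wn_zero_self (KK lam) 0]
  exact le_iSup (fun n => wn (KK lam) n 0 (0 : Site 2)) 0

theorem tr_le_one {lam : ℝ} (hl : 0 < lam) {t0 t1 : ℝ} (h0 : |t0| ≤ 1) (h1 : |t1| ≤ 1)
    (h : phi t0 * phi t1 ≤ EE lam) : ∑' x, ee t0 t1 x * KK lam 0 x ≤ 1 := by
  rw [KK_transf hl.le h0 h1, ENNReal.ofReal_le_one]
  exact (EE_iff hl).2 h

theorem tr_lt_one {lam : ℝ} (hl : 0 < lam) {t0 t1 : ℝ} (h0 : |t0| ≤ 1) (h1 : |t1| ≤ 1)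
    (h : phi t0 * phi t1 < EE lam) : ∑' x, ee t0 t1 x * KK lam 0 x < 1 := by
  rw [KK_transf hl.le h0 h1, ENNReal.ofReal_lt_one]
  exact (EE_iff' hl).2 h

theorem wn_bd {lam : ℝ} (hl : 0 < lam) {t0 t1 : ℝ} (h0 : |t0| ≤ 1) (h1 : |t1| ≤ 1)
    (h : phi t0 * phi t1 ≤ EE lam) (n : ℕ) (x : Site 2) :
    ee t0 t1 x * wn (KK lam) n 0 x ≤ 1 :=
  (wn_le_of_transf (KK lam) (KK_shift lam) (ee t0 t1) (ee_add t0 t1) (ee_zero t0 t1) n x).trans
    (pow_le_one₀ (zero_le) (tr_le_one hl h0 h1 h))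

theorem MM_bd {lam : ℝ} (hl : 0 < lam) {t0 t1 : ℝ} (h0 : |t0| ≤ 1) (h1 : |t1| ≤ 1)
    (h : phi t0 * phi t1 ≤ EE lam) (x : Site 2) :
    ee t0 t1 x * MM lam x ≤ 1 := by
  unfold MM
  rw [ENNReal.mul_iSup]
  exact iSup_le fun n => wn_bd hl h0 h1 h n x

theorem phi0_lt_EE {lam : ℝ} (hl : 0 < lam) (hl1 : lam < 1) : phi 0 * phi 0 < EE lam := by
  unfold EE
  have h := cpos
  have : phi 0 ^ 2 - 1 < (phi 0 ^ 2 - 1) / lam := by
    rw [lt_div_iff₀ hl]; nlinarith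
  rw [← sq]; linarith

theorem MM_le_one {lam : ℝ} (hl : 0 < lam) (hl1 : lam < 1) (x : Site 2) : MM lam x ≤ 1 := by
  have := MM_bd hl (t0 := 0) (t1 := 0) (by simp) (by simp) (phi0_lt_EE hl hl1).le x
  simpa [ee, dot] using this

theorem KK_pos {lam : ℝ} (hl : 0 < lam) {x : Site 2} (hx : x ≠ 0) : 0 < KK lam 0 x := by
  unfold KK J
  rw [if_neg (Ne.symm hx), ENNReal.ofReal_pos]
  exact mul_pos hl (mul_pos (psi_pos _) (Real.exp_pos _))

theorem MM_pos {lam : ℝ} (hl : 0 < lam) (x : Site 2) : 0 < MM lam x := by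
  rcases eq_or_ne x 0 with rfl | h
  · exact lt_of_lt_of_le one_pos (MM_zero_ge lam)
  · exact (KK_pos hl h).trans_le (MM_ge lam x)

/-- minus the logarithm of `MM` -/
noncomputable def mu (lam : ℝ) (x : Site 2) : ℝ := -Real.log (MM lam x).toReal

section fixed

variable {lam : ℝ} (hl : 0 < lam) (hl1 : lam < 1)

include hl hl1

theorem MM_ne_top (x : Site 2) : MM lam x ≠ ⊤ :=
  ne_top_of_le_ne_top ENNReal.one_ne_top (MM_le_one hl hl1 x)

theorem MMr_pos (x : Site 2) : 0 < (MM lam x).toReal :=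
  ENNReal.toReal_pos (MM_pos hl x).ne' (MM_ne_top hl hl1 x)

theorem MM_eq (x : Site 2) : MM lam x = ENNReal.ofReal (Real.exp (-mu lam x)) := by
  unfold mu
  rw [neg_neg, Real.exp_log (MMr_pos hl hl1 x), ENNReal.ofReal_toReal (MM_ne_top hl hl1 x)]

theorem mu_nonneg (x : Site 2) : 0 ≤ mu lam x := by
  unfold mu
  rw [neg_nonneg]
  refine Real.log_nonpos ENNReal.toReal_nonneg ?_
  have := ENNReal.toReal_mono ENNReal.one_ne_top (MM_le_one hl hl1 x)
  simpa using this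

theorem mu_add (x y : Site 2) : mu lam (x + y) ≤ mu lam x + mu lam y := by
  have h := MM_conv lam x y
  rw [MM_eq hl hl1, MM_eq hl hl1, MM_eq hl hl1, ← ENNReal.ofReal_mul (Real.exp_pos _).le,
    ENNReal.ofReal_le_ofReal_iff (Real.exp_pos _).le, ← Real.exp_add, Real.exp_le_exp] at h
  linarith

theorem mu_ge {t0 t1 : ℝ} (h0 : |t0| ≤ 1) (h1 : |t1| ≤ 1)
    (h : phi t0 * phi t1 ≤ EE lam) (x : Site 2) : dot t0 t1 x ≤ mu lam x := by
  have h := MM_bd hl h0 h1 h x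
  rw [MM_eq hl hl1, ee, ← ENNReal.ofReal_mul (Real.exp_pos _).le, ENNReal.ofReal_le_one,
    ← Real.exp_add, Real.exp_le_one_iff] at h
  linarith

theorem mu_le_one_step {x : Site 2} (hx : x ≠ 0) :
    mu lam x ≤ -Real.log (lam * psi x) + l1 (emb x) := by
  have h := MM_ge lam x
  unfold KK J at h
  rw [if_neg (Ne.symm hx), MM_eq hl hl1, ENNReal.ofReal_le_ofReal_iff (Real.exp_pos _).le,
    ← mul_assoc] at h
  have e1 : psi (0 - x) = psi x := by simp [psi]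
  have e2 : l1 (emb (0 - x)) = l1 (emb x) := by simp [l1_eq, emb]
  rw [e1, e2] at h
  have hp : 0 < lam * psi x := mul_pos hl (psi_pos x)
  have h3 := Real.log_le_log (mul_pos hp (Real.exp_pos _)) h
  rw [Real.log_exp, Real.log_mul hp.ne' (Real.exp_pos _).ne', Real.log_exp] at h3
  linarith

theorem mu_le (x : Site 2) :
    mu lam x ≤ |Real.log lam| + |Real.log kap| + 4 * l1 (emb x) := by
  have a0 := abs_nonneg (x 0 : ℝ)
  have a1 := abs_nonneg (x 1 : ℝ)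
  have e : l1 (emb x) = |(x 0 : ℝ)| + |(x 1 : ℝ)| := l1_eq _
  have d1 := neg_abs_le (Real.log lam)
  have d2 := neg_abs_le (Real.log kap)
  rcases eq_or_ne x 0 with rfl | hx
  · have h := MM_zero_ge lam
    rw [MM_eq hl hl1, ENNReal.one_le_ofReal, Real.one_le_exp_iff] at h
    have := abs_nonneg (Real.log lam)
    have := abs_nonneg (Real.log kap)
    rw [e]; linarith
  · have h := mu_le_one_step hl hl1 hx
    rw [Real.log_mul hl.ne' (psi_pos x).ne', log_psi] at h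
    have c0 := Real.log_le_sub_one_of_pos (by positivity : 0 < 1 + |(x 0 : ℝ)|)
    have c1 := Real.log_le_sub_one_of_pos (by positivity : 0 < 1 + |(x 1 : ℝ)|)
    rw [e] at h ⊢
    linarith

/-- upper bound for `-log G` -/
theorem G_lower (x : Site 2) (hG : G l1 psi lam 0 x ≠ ⊤) :
    -Real.log (G l1 psi lam 0 x).toReal ≤ mu lam x := by
  unfold mu
  rw [neg_le_neg_iff]
  refine Real.log_le_log (MMr_pos hl hl1 x) ?_
  exact ENNReal.toReal_mono hG (MM_le_G lam x)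

omit hl hl1 in
theorem G_upper' {t0 t1 : ℝ} (x : Site 2) :
    ee t0 t1 x * G l1 psi lam 0 x ≤ (1 - ∑' x, ee t0 t1 x * KK lam 0 x)⁻¹ := by
  rw [G_eq, ← ENNReal.tsum_mul_left, ← ENNReal.tsum_geometric]
  exact ENNReal.tsum_le_tsum fun n =>
    wn_le_of_transf (KK lam) (KK_shift lam) (ee t0 t1) (ee_add t0 t1) (ee_zero t0 t1) n x

/-- lower bound for `-log G` -/
theorem G_upper {t0 t1 : ℝ} (h0 : |t0| ≤ 1) (h1 : |t1| ≤ 1)
    (h : phi t0 * phi t1 < EE lam) : ∃ C : ℝ, ∀ x : Site 2, G l1 psi lam 0 x ≠ ⊤ ∧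
      dot t0 t1 x - C ≤ -Real.log (G l1 psi lam 0 x).toReal := by
  have hF := tr_lt_one hl h0 h1 h
  have hinv : (1 - ∑' x, ee t0 t1 x * KK lam 0 x)⁻¹ ≠ ⊤ := by
    rw [Ne, ENNReal.inv_eq_top]
    exact (tsub_pos_iff_lt.2 hF).ne'
  refine ⟨Real.log (1 - ∑' x, ee t0 t1 x * KK lam 0 x)⁻¹.toReal, fun x => ?_⟩
  have hb := G_upper' (lam := lam) (t0 := t0) (t1 := t1) x
  have hG : G l1 psi lam 0 x ≠ ⊤ := by
    intro htop
    rw [htop, ENNReal.mul_top (by simp [ee, Real.exp_pos])] at hb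
    exact hinv (top_le_iff.1 hb)
  refine ⟨hG, ?_⟩
  have hGpos : 0 < (G l1 psi lam 0 x).toReal :=
    ENNReal.toReal_pos ((MM_pos hl x).trans_le (MM_le_G lam x)).ne' hG
  have h3 := ENNReal.toReal_mono hinv hb
  rw [ENNReal.toReal_mul, ee, ENNReal.toReal_ofReal (Real.exp_pos _).le] at h3
  have h4 := Real.log_le_log (mul_pos (Real.exp_pos _) hGpos) h3
  rw [Real.log_mul (Real.exp_pos _).ne' hGpos.ne', Real.log_exp] at h4
  unfold ee at h4 ⊢
  linarith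

theorem G_ne_top (x : Site 2) : G l1 psi lam 0 x ≠ ⊤ := by
  obtain ⟨C, hC⟩ := G_upper hl hl1 (t0 := 0) (t1 := 0) (by simp) (by simp) (phi0_lt_EE hl hl1)
  exact (hC x).1

theorem exists_delta : ∃ δ : ℝ, 0 < δ ∧ δ ≤ 1 ∧ phi δ * phi δ < EE lam := by
  have hc : ContinuousWithinAt (fun t => phi t * phi t) (Icc (-1) 1) 0 :=
    (phi_cont 0 (by simp)).mul (phi_cont 0 (by simp))
  have hev := hc.eventually (gt_mem_nhds (phi0_lt_EE hl hl1))
  rw [eventually_nhdsWithin_iff, Metric.eventually_nhds_iff] at hev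
  obtain ⟨ε, hε, hev⟩ := hev
  refine ⟨min (ε / 2) 1, lt_min (by linarith) one_pos, min_le_right _ _, ?_⟩
  have h1 : 0 < min (ε / 2) 1 := lt_min (by linarith) one_pos
  have h2 := min_le_left (ε / 2) 1
  have h3 := min_le_right (ε / 2) 1
  exact @hev (min (ε / 2) 1) (by rw [Real.dist_eq, abs_lt]; constructor <;> linarith)
    ⟨by linarith, h3⟩

end fixed

end Pool.Agent.W825.Sat
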