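import Mathlib
import Pool.Agent.W825.Sat.Rate

set_option autoImplicit false

/-!
# Duality and the limit
-/

namespace Pool.Agent.W825.Sat

open Filter Topology Set
open scoped ENNReal

/-- the direction -/
noncomputable def ss : Fin 2 → ℝ := ![4 / 5, 3 / 5]

/-- the lattice site `5 s` -/
def vv : Site 2 := ![4, 3]

theorem l1_nsmul (k : ℕ) (x : Site 2) : l1 (emb (k • x)) = k * l1 (emb x) := by
  simp only [l1_eq, emb]
  have e : ∀ i, ((k • x) i : ℤ) = (k : ℤ) * x i := by
    intro i; rw [Pi.smul_apply, nsmul_eq_mul]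
  rw [e, e]
  push_cast
  rw [abs_mul, abs_mul, Nat.abs_cast]; ring

theorem dot_nsmul (t0 t1 : ℝ) (k : ℕ) (x : Site 2) : dot t0 t1 (k • x) = k * dot t0 t1 x := by
  simp only [dot, Pi.smul_apply, nsmul_eq_mul]
  push_cast
  ring

theorem summable_exp {c : ℝ} (hc : 0 < c) : Summable fun k : ℤ => Real.exp (-c * |(k : ℝ)|) := by
  have h : Summable fun n : ℕ => Real.exp (-c * (n : ℝ)) := by
    have := summable_geometric_of_lt_one (Real.exp_pos (-c)).le (Real.exp_lt_one_iff.2 (by linarith))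
    refine this.congr fun n => ?_
    rw [← Real.exp_nat_mul, mul_comm]
  refine Summable.of_nat_of_neg ?_ ?_
  · refine h.congr fun n => ?_
    simp
  · refine h.congr fun n => ?_
    simp

theorem sum_exp_lt_top {c : ℝ} (hc : 0 < c) :
    ∑' x : Site 2, ENNReal.ofReal (Real.exp (-c * l1 (emb x))) ≠ ⊤ := by
  have h := hasSum_prod (summable_exp hc).hasSum (summable_exp hc).hasSum
    (fun k => (Real.exp_pos _).le) (fun k => (Real.exp_pos _).le)
  have e : (fun x : Site 2 => Real.exp (-c * l1 (emb x)))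
      = fun x : Site 2 => Real.exp (-c * |(x 0 : ℝ)|) * Real.exp (-c * |(x 1 : ℝ)|) := by
    funext x
    rw [← Real.exp_add, l1_eq]
    unfold emb
    ring_nf
  rw [← e] at h
  rw [← ENNReal.ofReal_tsum_of_nonneg (fun x => (Real.exp_pos _).le) h.summable]
  exact ENNReal.ofReal_ne_top

theorem site_close {d : ℕ} (v : Fin d → ℝ) (i : Fin d) : |(site v i : ℝ) - v i| ≤ 1 / 2 := by
  unfold site
  have h1 := Int.floor_le (v i + 1 / 2)
  have h2 := Int.lt_floor_add_one (v i + 1 / 2)
  rw [abs_le]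
  constructor <;> linarith

section fixed

variable {lam : ℝ} (hl : 0 < lam) (hl1 : lam < 1)

include hl hl1

theorem dual : ∃ ν : Site 2 → ℝ,
    (∀ x, Tendsto (fun k : ℕ => mu lam (k • x) / k) atTop (𝓝 (ν x))) ∧
    ∃ t0 t1 : ℝ, |t0| ≤ 1 ∧ |t1| ≤ 1 ∧ phi t0 * phi t1 ≤ EE lam ∧ (t0 ≠ 0 ∨ t1 ≠ 0) ∧
      4 * t0 + 3 * t1 = ν vv := by
  obtain ⟨ν, ht, hle, hnn⟩ := hom_exists (mu lam) (mu_nonneg hl hl1) (mu_add hl hl1)
  refine ⟨ν, ht, ?_⟩
  have hadd := mu_add hl hl1
  -- lower bound
  have hlow : ∀ {t0 t1 : ℝ}, |t0| ≤ 1 → |t1| ≤ 1 → phi t0 * phi t1 ≤ EE lam → ∀ x,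
      dot t0 t1 x ≤ ν x := by
    intro t0 t1 h0 h1 h x
    refine ge_of_tendsto (ht x) ?_
    filter_upwards [eventually_gt_atTop 0] with k hk
    have hkR : (0 : ℝ) < k := by exact_mod_cast hk
    rw [le_div_iff₀ hkR, mul_comm, ← dot_nsmul]
    exact mu_ge hl hl1 h0 h1 h _
  obtain ⟨δ, hδ0, hδ1, hδ⟩ := exists_delta hl hl1
  have hδa : |δ| ≤ 1 := by rwa [abs_of_pos hδ0]
  have hδb : |-δ| ≤ 1 := by rwa [abs_neg]
  have hlow2 : ∀ x, δ * l1 (emb x) ≤ ν x := by
    intro x
    rw [l1_eq]
    unfold emb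
    have p1 := hlow hδa hδa hδ.le x
    have p2 := hlow hδa hδb (by rw [phi_neg]; exact hδ.le) x
    have p3 := hlow hδb hδa (by rw [phi_neg]; exact hδ.le) x
    have p4 := hlow hδb hδb (by rw [phi_neg]; exact hδ.le) x
    unfold dot at p1 p2 p3 p4
    rcases abs_cases (x 0 : ℝ) with ⟨h0, -⟩ | ⟨h0, -⟩ <;>
    rcases abs_cases (x 1 : ℝ) with ⟨h1, -⟩ | ⟨h1, -⟩ <;>
    rw [h0, h1] <;> linarith
  have hup : ∀ x, x ≠ 0 → ν x ≤ l1 (emb x) := by
    intro x hx
    have hinj : Function.Injective (fun k : ℕ => k • x) := by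
      intro a b hab
      have : ∃ i, x i ≠ 0 := by
        by_contra hc
        push Not at hc
        exact hx (funext hc)
      obtain ⟨i, hi⟩ := this
      have h := congrFun hab i
      simp only [Pi.smul_apply, nsmul_eq_mul] at h
      exact_mod_cast mul_right_cancel₀ hi h
    have hco : Tendsto (fun k : ℕ => k • x) atTop cofinite := by
      rw [← Nat.cofinite_eq_atTop]
      exact hinj.tendsto_cofinite
    have h1 := psi_pref.sub.comp hco
    have hlx : 0 < l1 (emb x) := by
      refine l1_lattice.pos _ fun h => hx ?_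
      funext i
      have := congrFun h i
      simpa [emb] using this
    have h2 : Tendsto (fun k : ℕ => Real.log lam / k) atTop (𝓝 0) :=
      tendsto_const_div_atTop_nhds_zero_nat _
    have h3 : Tendsto (fun k : ℕ => -(Real.log lam / k)
        - Real.log (psi (k • x)) / l1 (emb (k • x)) * l1 (emb x) + l1 (emb x)) atTop
        (𝓝 (-0 - 0 * l1 (emb x) + l1 (emb x))) :=
      (h2.neg.sub (h1.mul_const _)).add_const _
    rw [neg_zero, zero_mul, sub_zero, zero_add] at h3
    refine le_of_tendsto_of_tendsto (ht x) h3 ?_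
    filter_upwards [eventually_gt_atTop 0] with k hk
    have hkR : (0 : ℝ) < k := by exact_mod_cast hk
    have hkx : k • x ≠ 0 := by
      intro h
      have := @hinj k 0 (by simpa using h)
      omega
    have h4 := mu_le_one_step hl hl1 hkx
    rw [Real.log_mul hl.ne' (psi_pos _).ne', l1_nsmul] at h4
    rw [l1_nsmul, div_le_iff₀ hkR]
    have e : (-(Real.log lam / k) - Real.log (psi (k • x)) / (k * l1 (emb x)) * l1 (emb x)
        + l1 (emb x)) * k = -Real.log lam - Real.log (psi (k • x)) + k * l1 (emb x) := by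
      field_simp
    rw [e]
    linarith
  obtain ⟨c, hc⟩ := hom_hb ht hadd ![1, 1] vv
  set t0 := ν vv - 3 * c with ht0
  set t1 := 4 * c - ν vv with ht1
  have hdot : ∀ x, dot t0 t1 x ≤ ν x := by
    intro x
    have h := hc (x 0 - x 1) (4 * x 1 - 3 * x 0)
    have e : (x 0 - x 1) • vv + (4 * x 1 - 3 * x 0) • ![1, 1] = x := by
      funext i
      fin_cases i
      · simp [vv]; ring
      · simp [vv]; ring
    rw [e] at h
    push_cast at h
    refine le_trans (le_of_eq ?_) h
    unfold dot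
    rw [ht0, ht1]
    ring
  have b0 : |t0| ≤ 1 := by
    have h1 := (hdot ![1, 0]).trans (hup ![1, 0] (fun h => by simpa using congrFun h 0))
    have h2 := (hdot ![-1, 0]).trans (hup ![-1, 0] (fun h => by simpa using congrFun h 0))
    simp [dot, l1_eq, emb] at h1 h2
    rw [abs_le]; constructor <;> linarith
  have b1 : |t1| ≤ 1 := by
    have h1 := (hdot ![0, 1]).trans (hup ![0, 1] (fun h => by simpa using congrFun h 1))
    have h2 := (hdot ![0, -1]).trans (hup ![0, -1] (fun h => by simpa using congrFun h 1))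
    simp [dot, l1_eq, emb] at h1 h2
    rw [abs_le]; constructor <;> linarith
  have hsum : 4 * t0 + 3 * t1 = ν vv := by rw [ht0, ht1]; ring
  refine ⟨t0, t1, b0, b1, ?_, ?_, hsum⟩
  · -- the transform at `(1-ε) t`
    have key : ∀ ε : ℝ, 0 < ε → ε < 1 → phi ((1 - ε) * t0) * phi ((1 - ε) * t1) ≤ EE lam := by
      intro ε hε0 hε1
      have c0 : |(1 - ε) * t0| ≤ 1 := by
        rw [abs_mul, abs_of_pos (by linarith)]
        nlinarith [abs_nonneg t0]
      have c1 : |(1 - ε) * t1| ≤ 1 := by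
        rw [abs_mul, abs_of_pos (by linarith)]
        nlinarith [abs_nonneg t1]
      have hb : ∀ n : ℕ, (∑' x, ee ((1 - ε) * t0) ((1 - ε) * t1) x * KK lam 0 x) ^ n
          ≤ ∑' x : Site 2, ENNReal.ofReal (Real.exp (-(ε * δ) * l1 (emb x))) := by
        intro n
        rw [← wn_transf (KK lam) (KK_shift lam) _ (ee_add _ _) (ee_zero _ _)]
        refine ENNReal.tsum_le_tsum fun x => ?_
        have q1 : wn (KK lam) n 0 x ≤ ENNReal.ofReal (Real.exp (-ν x)) := by
          refine (le_iSup (fun n => wn (KK lam) n 0 x) n).trans ?_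
          change MM lam x ≤ _
          rw [MM_eq hl hl1]
          refine ENNReal.ofReal_le_ofReal (Real.exp_le_exp.2 ?_)
          linarith [hle x]
        refine (mul_le_mul_right q1 _).trans ?_
        unfold ee
        rw [← ENNReal.ofReal_mul (Real.exp_pos _).le, ← Real.exp_add]
        refine ENNReal.ofReal_le_ofReal (Real.exp_le_exp.2 ?_)
        have q2 : dot ((1 - ε) * t0) ((1 - ε) * t1) x = (1 - ε) * dot t0 t1 x := by
          unfold dot; ring
        rw [q2]
        have q3 := mul_le_mul_of_nonneg_left (hdot x) (by linarith : 0 ≤ 1 - ε)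
        have q4 := mul_le_mul_of_nonneg_left (hlow2 x) hε0.le
        linarith
      rw [KK_transf hl.le c0 c1] at hb
      rw [← EE_iff hl]
      by_contra hcon
      push Not at hcon
      set r := lam * (kap * (phi ((1 - ε) * t0) * phi ((1 - ε) * t1) - 1)) with hr
      obtain ⟨n, hn⟩ := pow_unbounded_of_one_lt
        (∑' x : Site 2, ENNReal.ofReal (Real.exp (-(ε * δ) * l1 (emb x)))).toReal hcon
      have h5 := ENNReal.toReal_mono (sum_exp_lt_top (mul_pos hε0 hδ0)) (hb n)
      rw [ENNReal.toReal_pow, ENNReal.toReal_ofReal (by linarith)] at h5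
      linarith
    have hcont : ContinuousWithinAt (fun ε : ℝ => phi ((1 - ε) * t0) * phi ((1 - ε) * t1))
        (Ioo 0 1) 0 := by
      have mt : ∀ t : ℝ, |t| ≤ 1 → MapsTo (fun ε : ℝ => (1 - ε) * t) (Ioo 0 1) (Icc (-1) 1) := by
        intro t ht ε hε
        rw [mem_Icc, ← abs_le, abs_mul, abs_of_pos (by linarith [hε.2])]
        nlinarith [abs_nonneg t, hε.1, hε.2]
      have cw : ∀ t : ℝ, |t| ≤ 1 → ContinuousWithinAt (fun ε : ℝ => phi ((1 - ε) * t))
          (Ioo 0 1) 0 := by
        intro t ht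
        have c1 : ContinuousWithinAt phi (Icc (-1) 1) ((fun ε : ℝ => (1 - ε) * t) 0) :=
          phi_cont _ (by simpa [← abs_le] using ht)
        have c2 : ContinuousWithinAt (fun ε : ℝ => (1 - ε) * t) (Ioo 0 1) 0 := by
          fun_prop
        exact ContinuousWithinAt.comp (g := phi) (f := fun ε : ℝ => (1 - ε) * t) (x := 0)
          c1 c2 (mt t ht)
      exact (cw t0 b0).mul (cw t1 b1)
    have hne : (𝓝[Ioo 0 1] (0 : ℝ)).NeBot := by
      rw [← mem_closure_iff_nhdsWithin_neBot, closure_Ioo (by norm_num)]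
      simp
    have h6 := le_of_tendsto hcont (b := EE lam) (by
      filter_upwards [self_mem_nhdsWithin] with ε hε
      exact key ε hε.1 hε.2)
    simpa using h6
  · by_contra hcon
    push Not at hcon
    rw [hcon.1, hcon.2] at hsum
    have := hlow2 vv
    have e : l1 (emb vv) = 7 := by simp [l1_eq, emb, vv]; norm_num
    rw [e, ← hsum] at this
    linarith

end fixed

end Pool.Agent.W825.Sat
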