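import Mathlib
import Pool.Agent.W825.Sat.Lim

set_option autoImplicit false

/-!
# The limit of the rate, the thresholds and the failure of analyticity
-/

namespace Pool.Agent.W825.Sat

open Filter Topology Set
open scoped ENNReal

theorem rate_eq (s : Fin 2 → ℝ) (lam : ℝ) (n : ℕ) : rate l1 psi s lam n
    = (-Real.log (G l1 psi lam 0 (site (fun i => n * s i))).toReal) / n := by
  unfold rate; ring

theorem dot_site {t0 t1 : ℝ} (h0 : |t0| ≤ 1) (h1 : |t1| ≤ 1) (s : Fin 2 → ℝ) (n : ℕ) :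
    n * (t0 * s 0 + t1 * s 1) - 1 ≤ dot t0 t1 (site (fun i => n * s i)) := by
  have a0 := site_close (fun i => n * s i) 0
  have a1 := site_close (fun i => n * s i) 1
  have b0 : |t0 * ((site (fun i => n * s i) 0 : ℝ) - n * s 0)| ≤ 1 / 2 := by
    rw [abs_mul]
    calc |t0| * |(site (fun i => n * s i) 0 : ℝ) - n * s 0| ≤ 1 * (1 / 2) :=
          mul_le_mul h0 a0 (abs_nonneg _) zero_le_one
      _ = 1 / 2 := by norm_num
  have b1 : |t1 * ((site (fun i => n * s i) 1 : ℝ) - n * s 1)| ≤ 1 / 2 := by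
    rw [abs_mul]
    calc |t1| * |(site (fun i => n * s i) 1 : ℝ) - n * s 1| ≤ 1 * (1 / 2) :=
          mul_le_mul h1 a1 (abs_nonneg _) zero_le_one
      _ = 1 / 2 := by norm_num
  have c0 := (abs_le.1 b0).1
  have c1 := (abs_le.1 b1).1
  unfold dot
  linarith

theorem l1_site (s : Fin 2 → ℝ) (n : ℕ) :
    l1 (emb (site (fun i => n * s i))) ≤ n * (|s 0| + |s 1|) + 1 := by
  have a0 := site_close (fun i => n * s i) 0
  have a1 := site_close (fun i => n * s i) 1
  have b : ∀ i, |(site (fun i => n * s i) i : ℝ)| ≤ 1 / 2 + n * |s i| := by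
    intro i
    have a := site_close (fun i => n * s i) i
    have e : (site (fun i => n * s i) i : ℝ)
        = ((site (fun i => n * s i) i : ℝ) - n * s i) + n * s i := by ring
    rw [e]
    refine (abs_add_le _ _).trans ?_
    rw [abs_mul, Nat.abs_cast]
    exact add_le_add a le_rfl
  rw [l1_eq]
  unfold emb
  have b0 := b 0
  have b1 := b 1
  linarith

section fixed

variable {lam : ℝ} (hl : 0 < lam) (hl1 : lam < 1)

include hl hl1

theorem rate_ge {t0 t1 : ℝ} (h0 : |t0| ≤ 1) (h1 : |t1| ≤ 1)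
    (h : phi t0 * phi t1 < EE lam) (s : Fin 2 → ℝ) : ∃ C : ℝ, ∀ n : ℕ, 0 < n →
      (t0 * s 0 + t1 * s 1) - C / n ≤ rate l1 psi s lam n := by
  obtain ⟨C, hC⟩ := G_upper hl hl1 h0 h1 h
  refine ⟨C + 1, fun n hn => ?_⟩
  have hnR : (0 : ℝ) < n := by exact_mod_cast hn
  rw [rate_eq, le_div_iff₀ hnR, sub_mul, div_mul_cancel₀ _ hnR.ne']
  have h2 := (hC (site (fun i => n * s i))).2
  have h3 := dot_site h0 h1 s n
  linarith

theorem rate_le (s : Fin 2 → ℝ) : ∃ C : ℝ, ∀ n : ℕ, 0 < n → rate l1 psi s lam n ≤ C := by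
  set A := |Real.log lam| + |Real.log kap| with hA
  have hA0 : 0 ≤ A := by positivity
  refine ⟨A + 4 * (|s 0| + |s 1|) + 4, fun n hn => ?_⟩
  have hnR : (1 : ℝ) ≤ n := by exact_mod_cast hn
  have hnR' : (0 : ℝ) < n := by linarith
  rw [rate_eq, div_le_iff₀ hnR']
  have h1 := G_lower hl hl1 (site (fun i => n * s i)) (G_ne_top hl hl1 _)
  have h2 := mu_le hl hl1 (site (fun i => n * s i))
  have h3 := l1_site s n
  rw [← hA] at h2
  nlinarith

theorem nu_ge_of {a : ℝ} (s : Fin 2 → ℝ)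
    (h : ∀ᶠ n in atTop, a ≤ rate l1 psi s lam n) : a ≤ nu l1 psi s lam := by
  unfold nu
  refine le_liminf_of_le ?_ h
  obtain ⟨C, hC⟩ := rate_le hl hl1 s
  have : IsBoundedUnder (· ≤ ·) atTop (rate l1 psi s lam) := by
    refine ⟨C, ?_⟩
    rw [eventually_map]
    filter_upwards [eventually_gt_atTop 0] with n hn
    exact hC n hn
  exact this.isCoboundedUnder_flip

/-- the inverse correlation length is bounded below uniformly in the direction -/
theorem nu_unif : ∃ δ : ℝ, 0 < δ ∧ ∀ s : Fin 2 → ℝ, ∑ i, s i ^ 2 = 1 →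
    δ ≤ nu l1 psi s lam := by
  obtain ⟨δ, hδ0, hδ1, hδ⟩ := exists_delta hl hl1
  have hδa : |δ| ≤ 1 := by rwa [abs_of_pos hδ0]
  have hδb : |-δ| ≤ 1 := by rwa [abs_neg]
  refine ⟨δ / 2, by linarith, fun s hs => ?_⟩
  have key : ∀ t0 t1 : ℝ, |t0| ≤ 1 → |t1| ≤ 1 → phi t0 * phi t1 < EE lam →
      δ ≤ t0 * s 0 + t1 * s 1 → δ / 2 ≤ nu l1 psi s lam := by
    intro t0 t1 h0 h1 h h2
    obtain ⟨C, hC⟩ := rate_ge hl hl1 h0 h1 h s
    refine nu_ge_of hl hl1 s ?_
    have h3 : Tendsto (fun n : ℕ => C / n) atTop (𝓝 0) := tendsto_const_div_atTop_nhds_zero_nat C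
    filter_upwards [eventually_gt_atTop 0, h3.eventually (gt_mem_nhds (by linarith : (0 : ℝ) < δ / 2))]
      with n hn h4
    have := hC n hn
    linarith
  rw [Fin.sum_univ_two] at hs
  have hsum : 1 ≤ |s 0| + |s 1| := by
    have e0 := sq_abs (s 0)
    have e1 := sq_abs (s 1)
    have p0 := abs_nonneg (s 0)
    have p1 := abs_nonneg (s 1)
    by_contra hcon
    push Not at hcon
    nlinarith [mul_nonneg p0 p1]
  have hd : δ ≤ δ * (|s 0| + |s 1|) := by nlinarith
  rcases abs_cases (s 0) with ⟨h0, -⟩ | ⟨h0, -⟩ <;>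
  rcases abs_cases (s 1) with ⟨h1, -⟩ | ⟨h1, -⟩ <;>
  rw [h0, h1] at hd
  · exact key δ δ hδa hδa hδ (by linarith)
  · exact key δ (-δ) hδa hδb (by rw [phi_neg]; exact hδ) (by linarith)
  · exact key (-δ) δ hδb hδa (by rw [phi_neg]; exact hδ) (by linarith)
  · exact key (-δ) (-δ) hδb hδb (by rw [phi_neg]; exact hδ) (by linarith)

theorem phi_scale {t ε : ℝ} (ht : |t| ≤ 1) (hε0 : 0 < ε) (hε1 : ε < 1) :
    phi ((1 - ε) * t) ≤ phi t ∧ (t ≠ 0 → phi ((1 - ε) * t) < phi t) := by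
  have e1 : phi ((1 - ε) * t) = phi ((1 - ε) * |t|) := by
    rw [← phi_abs ((1 - ε) * t), abs_mul, abs_of_pos (by linarith : 0 < 1 - ε)]
  rw [e1, ← phi_abs t]
  have h0 := abs_nonneg t
  constructor
  · exact phi_le (mul_nonneg (by linarith) h0) (by nlinarith) ht
  · intro hne
    have hp := abs_pos.2 hne
    exact phi_lt (mul_nonneg (by linarith) h0) (by nlinarith) ht

theorem rate_tendsto : ∃ t0 t1 : ℝ, |t0| ≤ 1 ∧ |t1| ≤ 1 ∧ phi t0 * phi t1 ≤ EE lam ∧
    (∀ a0 a1 : ℝ, |a0| ≤ 1 → |a1| ≤ 1 → phi a0 * phi a1 ≤ EE lam →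
      4 * a0 + 3 * a1 ≤ 4 * t0 + 3 * t1) ∧
    Tendsto (rate l1 psi ss lam) atTop (𝓝 ((4 * t0 + 3 * t1) / 5)) := by
  obtain ⟨ν, ht, t0, t1, h0, h1, hE, hne, hsum⟩ := dual hl hl1
  refine ⟨t0, t1, h0, h1, hE, ?_, ?_⟩
  · intro a0 a1 ha0 ha1 ha
    rw [hsum]
    refine ge_of_tendsto (ht vv) ?_
    filter_upwards [eventually_gt_atTop 0] with k hk
    have hkR : (0 : ℝ) < k := by exact_mod_cast hk
    have e : 4 * a0 + 3 * a1 = dot a0 a1 vv := by simp [dot, vv]; ring
    rw [le_div_iff₀ hkR, mul_comm, e, ← dot_nsmul]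
    exact mu_ge hl hl1 ha0 ha1 ha _
  have hss0 : ss 0 = 4 / 5 := rfl
  have hss1 : ss 1 = 3 / 5 := rfl
  rw [hsum, tendsto_order]
  constructor
  · intro a ha
    -- choose `ε`
    have hc : Tendsto (fun ε : ℝ => (1 - ε) * (ν vv / 5)) (𝓝[>] 0) (𝓝 ((1 - 0) * (ν vv / 5))) := by
      apply Tendsto.mono_left _ nhdsWithin_le_nhds
      exact (by fun_prop : Continuous fun ε : ℝ => (1 - ε) * (ν vv / 5)).tendsto 0
    rw [sub_zero, one_mul] at hc
    obtain ⟨ε, hε, hε0, hε1⟩ := ((hc.eventually (lt_mem_nhds ha)).and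
      (Ioo_mem_nhdsGT (zero_lt_one))).exists
    have c0 : |(1 - ε) * t0| ≤ 1 := by
      rw [abs_mul, abs_of_pos (by linarith)]
      nlinarith [abs_nonneg t0]
    have c1 : |(1 - ε) * t1| ≤ 1 := by
      rw [abs_mul, abs_of_pos (by linarith)]
      nlinarith [abs_nonneg t1]
    have d0 := phi_scale hl hl1 h0 hε0 hε1
    have d1 := phi_scale hl hl1 h1 hε0 hε1
    have p0 := phi_pos c0
    have p1 := phi_pos c1
    have p2 := phi_pos h0
    have p3 := phi_pos h1
    have hlt : phi ((1 - ε) * t0) * phi ((1 - ε) * t1) < EE lam := by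
      refine lt_of_lt_of_le ?_ hE
      rcases hne with h | h
      · exact mul_lt_mul (d0.2 h) d1.1 (by linarith) (by linarith)
      · exact mul_lt_mul' d0.1 (d1.2 h) (by linarith) (by linarith)
    obtain ⟨C, hC⟩ := rate_ge hl hl1 c0 c1 hlt ss
    have e : (1 - ε) * t0 * ss 0 + (1 - ε) * t1 * ss 1 = (1 - ε) * (ν vv / 5) := by
      rw [hss0, hss1, ← hsum]; ring
    rw [e] at hC
    have h3 : Tendsto (fun n : ℕ => (1 - ε) * (ν vv / 5) - C / n) atTop
        (𝓝 ((1 - ε) * (ν vv / 5) - 0)) :=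
      tendsto_const_nhds.sub (tendsto_const_div_atTop_nhds_zero_nat C)
    rw [sub_zero] at h3
    filter_upwards [eventually_gt_atTop 0, h3.eventually (lt_mem_nhds hε)] with n hn h4
    exact h4.trans_le (hC n hn)
  · intro b hb
    set y : ℕ → Site 2 := fun n => site (fun i => n * ss i) with hy
    set B := ∑ r ∈ Finset.range 5, mu lam (y r) with hB
    have hdec : ∀ n : ℕ, y n = (n / 5) • vv + y (n % 5) := by
      intro n
      have hn : (n : ℝ) = 5 * ((n / 5 : ℕ) : ℝ) + ((n % 5 : ℕ) : ℝ) := by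
        exact_mod_cast (Nat.div_add_mod n 5).symm
      funext i
      have ev : ∀ i, ((n / 5) • vv) i = ((n / 5 : ℕ) : ℤ) * vv i := by
        intro i; rw [Pi.smul_apply, nsmul_eq_mul]
      have e0 : vv 0 = 4 := rfl
      have e1 : vv 1 = 3 := rfl
      simp only [hy, site, Pi.add_apply, ev]
      fin_cases i
      · simp only [Fin.zero_eta, hss0, e0]
        rw [← Int.floor_intCast_add]
        congr 1
        rw [hn]
        generalize n / 5 = q
        generalize n % 5 = r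
        push_cast
        ring
      · simp only [Fin.mk_one, hss1, e1]
        rw [← Int.floor_intCast_add]
        congr 1
        rw [hn]
        generalize n / 5 = q
        generalize n % 5 = r
        push_cast
        ring
    have hup : ∀ n : ℕ, 0 < n → rate l1 psi ss lam n ≤ (mu lam ((n / 5) • vv) + B) / n := by
      intro n hn
      rw [rate_eq]
      refine div_le_div_of_nonneg_right ?_ (Nat.cast_nonneg _)
      refine (G_lower hl hl1 _ (G_ne_top hl hl1 _)).trans ?_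
      change mu lam (y n) ≤ _
      rw [hdec n]
      refine (mu_add hl hl1 _ _).trans (add_le_add le_rfl ?_)
      rw [hB]
      exact Finset.single_le_sum (f := fun r => mu lam (y r)) (fun r _ => mu_nonneg hl hl1 _)
        (Finset.mem_range.2 (Nat.mod_lt _ (by norm_num)))
    have hq : Tendsto (fun n : ℕ => ((n / 5 : ℕ) : ℝ) / n) atTop (𝓝 (1 / 5)) := by
      have h5 : Tendsto (fun n : ℕ => 1 / 5 - (((n % 5 : ℕ) : ℝ) / 5) / n) atTop
          (𝓝 (1 / 5 - 0)) := by
        refine tendsto_const_nhds.sub ?_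
        refine squeeze_zero (fun n => by positivity) (fun n => ?_)
          (tendsto_const_div_atTop_nhds_zero_nat (1 : ℝ))
        refine div_le_div_of_nonneg_right ?_ (Nat.cast_nonneg _)
        have : ((n % 5 : ℕ) : ℝ) ≤ 5 := by
          exact_mod_cast (Nat.mod_lt n (by norm_num : 0 < 5)).le
        linarith
      rw [sub_zero] at h5
      refine h5.congr' ?_
      filter_upwards [eventually_gt_atTop 0] with n hn
      have hnR : (n : ℝ) ≠ 0 := by positivity
      have hn' : (n : ℝ) = 5 * ((n / 5 : ℕ) : ℝ) + ((n % 5 : ℕ) : ℝ) := by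
        exact_mod_cast (Nat.div_add_mod n 5).symm
      rw [eq_div_iff hnR, sub_mul, div_mul_cancel₀ _ hnR]
      linarith
    have hdiv : Tendsto (fun n : ℕ => n / 5) atTop atTop :=
      Nat.tendsto_div_const_atTop (by norm_num)
    have h6 := ((ht vv).comp hdiv).mul hq
    have h7 := h6.add (tendsto_const_div_atTop_nhds_zero_nat B)
    rw [add_zero] at h7
    have h8 : Tendsto (fun n : ℕ => (mu lam ((n / 5) • vv) + B) / n) atTop (𝓝 (ν vv / 5)) := by
      have e : ν vv * (1 / 5) = ν vv / 5 := by ring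
      rw [e] at h7
      refine h7.congr' ?_
      filter_upwards [eventually_ge_atTop 5] with n hn
      have hk : ((n / 5 : ℕ) : ℝ) ≠ 0 := by
        have : 0 < n / 5 := Nat.div_pos hn (by norm_num)
        positivity
      have hnR : (n : ℝ) ≠ 0 := by
        have : 0 < n := by omega
        positivity
      simp only [Function.comp]
      field_simp
    filter_upwards [eventually_gt_atTop 0, h8.eventually (gt_mem_nhds hb)] with n hn h9
    exact (hup n hn).trans_lt h9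

theorem rate_nu : Tendsto (rate l1 psi ss lam) atTop (𝓝 (nu l1 psi ss lam)) := by
  obtain ⟨t0, t1, -, -, -, -, h⟩ := rate_tendsto hl hl1
  have e : nu l1 psi ss lam = (4 * t0 + 3 * t1) / 5 := h.liminf_eq
  rw [e]
  exact h

end fixed

theorem supp_nu : Supp (nu l1 psi ss) where
  ge := by
    intro lam hl hl1 t1 t2 h1 h2 hE
    obtain ⟨t0', t1', -, -, -, hmax, h⟩ := rate_tendsto hl hl1
    have e : nu l1 psi ss lam = (4 * t0' + 3 * t1') / 5 := h.liminf_eq
    have := hmax t1 t2 h1 h2 hE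
    rw [e]
    linarith
  ex := by
    intro lam hl hl1
    obtain ⟨t0, t1, h0, h1, hE, -, h⟩ := rate_tendsto hl hl1
    exact ⟨t0, t1, h0, h1, hE, h.liminf_eq⟩

theorem lamExp_eq : lamExp l1 psi = 1 := by
  unfold lamExp
  rw [lamC_eq]
  have : {lam : ℝ | 0 < lam ∧ lam < 1 ∧
      ⨅ s : {s : Fin 2 → ℝ // ∑ i, s i ^ 2 = 1}, nu l1 psi s.1 lam = 0} = ∅ := by
    rw [Set.eq_empty_iff_forall_notMem]
    rintro lam ⟨hl, hl1, h⟩
    obtain ⟨δ, hδ, hs⟩ := nu_unif hl hl1
    have hne : Nonempty {s : Fin 2 → ℝ // ∑ i, s i ^ 2 = 1} := ⟨⟨![1, 0], by simp⟩⟩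
    have := le_ciInf (fun s : {s : Fin 2 → ℝ // ∑ i, s i ^ 2 = 1} => hs s.1 s.2)
    rw [h] at this
    linarith
  rw [this, Set.union_empty, csInf_singleton]

theorem lamSat_le : lamSat l1 psi ss ≤ lam0 := by
  unfold lamSat
  refine Real.sSup_le ?_ lam0_pos.le
  rintro lam ⟨hl, hl1, h⟩
  rw [lamC_eq] at hl1
  refine supp_sat supp_nu hl hl1 ?_
  rw [h, l1_eq]
  simp only [ss, Matrix.cons_val_zero, Matrix.cons_val_one]
  norm_num

/-- **Main result**: there are a lattice invariant norm on `ℝ²` (the `ℓ¹` norm), an admissible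
prefactor and a direction such that the inverse correlation length of the killed random walk is
not real-analytic on `(λ_sat, λ_exp)`. -/
theorem main : ∃ (N : (Fin 2 → ℝ) → ℝ) (ψ : Site 2 → ℝ) (s : Fin 2 → ℝ),
    LatticeNorm N ∧ Prefactor N ψ ∧ HasSum (fun x => J N ψ 0 x) 1 ∧ ∑ i, s i ^ 2 = 1 ∧
    lamC N ψ = 1 ∧ lamExp N ψ = 1 ∧
    (∀ lam : ℝ, 0 < lam → lam < lamC N ψ →
      Tendsto (rate N ψ s lam) atTop (𝓝 (nu N ψ s lam))) ∧
    ∃ lam : ℝ, lamSat N ψ s < lam ∧ lam < lamExp N ψ ∧ ¬ AnalyticAt ℝ (nu N ψ s) lam := by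
  refine ⟨l1, psi, ss, l1_lattice, psi_pref, J_sum, ?_, lamC_eq, lamExp_eq, ?_, ?_⟩
  · rw [Fin.sum_univ_two]
    simp only [ss, Matrix.cons_val_zero, Matrix.cons_val_one]
    norm_num
  · intro lam hl hl1
    rw [lamC_eq] at hl1
    exact rate_nu hl hl1
  · obtain ⟨lam, h0, h1, h2⟩ := supp_not_analytic supp_nu
    exact ⟨lam, lamSat_le.trans_lt h0, by rw [lamExp_eq]; exact h1, h2⟩

end Pool.Agent.W825.Sat
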